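import Mathlib

/-!
# The telescope over the windows: full steps and jumps

`f j` is the defect of the window `j`. At a window which is good to its right the step is full; a
window which is not good is left by a jump to a window which is good to its right; the lengths of
the jumps are at most `(∑ f) / η`.
-/

set_option autoImplicit false

namespace Pool.PC.Tel

open Finset

/-- The window `b` is good to its right, among the windows below `M`. -/
def Gr (f : ℕ → ℝ) (η : ℝ) (M b : ℕ) : Prop :=
  ∀ t, b + t ≤ M → ∑ j ∈ Ico b (b + t), f j ≤ η * t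

variable {f : ℕ → ℝ} {η : ℝ} {M : ℕ}

theorem Gr.le {b : ℕ} (h : Gr f η M b) (hb : b < M) : f b ≤ η := by
  have := h 1 (by omega)
  simpa using this

/-- From a window which is not good one can jump to a good one. -/
theorem jump {a : ℕ} (ha : a ≤ M) (h : ¬ Gr f η M a) : ∃ b, a < b ∧ b ≤ M ∧ Gr f η M b ∧
    η * (b - a : ℕ) < ∑ j ∈ Ico a b, f j := by
  classical
  obtain ⟨S, hS⟩ : ∃ S, S = (range (M - a + 1)).filter
    (fun t => η * t < ∑ j ∈ Ico a (a + t), f j) := ⟨_, rfl⟩
  have hne : S.Nonempty := by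
    unfold Gr at h
    push Not at h
    obtain ⟨t, ht, hlt⟩ := h
    refine ⟨t, ?_⟩
    rw [hS, mem_filter, mem_range]
    exact ⟨by omega, hlt⟩
  obtain ⟨t, ht⟩ : ∃ t, t = S.max' hne := ⟨_, rfl⟩
  have htS : t ∈ S := ht ▸ S.max'_mem hne
  have hmax : ∀ t' ∈ S, t' ≤ t := fun t' h' => ht ▸ S.le_max' t' h'
  rw [hS, mem_filter, mem_range] at htS
  obtain ⟨h1, h2⟩ := htS
  have ht0 : t ≠ 0 := by
    rintro rfl
    simp at h2
  refine ⟨a + t, by omega, by omega, ?_, ?_⟩
  · intro t' ht'
    by_contra hcon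
    have hcon := not_le.1 hcon
    have h3 : t + t' ∈ S := by
      rw [hS, mem_filter, mem_range]
      refine ⟨by omega, ?_⟩
      have h4 : ∑ j ∈ Ico a (a + (t + t')), f j = ∑ j ∈ Ico a (a + t), f j +
          ∑ j ∈ Ico (a + t) (a + t + t'), f j := by
        rw [← Finset.sum_Ico_consecutive f (by omega : a ≤ a + t)
          (by omega : a + t ≤ a + (t + t')), add_assoc]
      rw [h4]
      push_cast
      linarith
    have h5 := hmax _ h3
    have h6 : t' ≠ 0 := by
      rintro rfl
      simp at hcon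
    omega
  · have e : a + t - a = t := by omega
    rw [e]
    exact h2

/-- **The telescope.** `N`: the information, `V`: the volume, `L`: the level of the frame; `u`:
the length of a window. From every window `a ≤ M` one reaches a window `b ≥ n`, and the
difference `N - V` does not drop by more than the stated amount. -/
theorem tele {N V L : ℕ → ℝ} {n : ℕ} {u c₁ c₂ c₃ e₀ e₁ : ℝ} (hnM : n ≤ M) (hf : ∀ j, 0 ≤ f j)
    (hη : 0 < η) (hc₁ : 0 ≤ c₁) (hc₂ : 0 ≤ c₂) (hc₃ : 0 ≤ c₃) (hu : 0 ≤ u) (he₀ : 0 ≤ e₀)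
    (he₁ : 0 ≤ e₁) (hL : ∀ i j, i ≤ j → j ≤ M → L i ≤ L j)
    (hS : ∀ i, i < n → Gr f η M i →
      V (i + 1) - V i - (c₁ * f i + e₀) * u ≤ N (i + 1) - N i)
    (hX : ∀ a b, a < n → a < b → b ≤ M → Gr f η M b →
      V b - V a - c₂ * (b - a : ℕ) * u - c₃ * (L b - L a) - e₁ ≤ N b - N a) :
    ∀ a, a ≤ M → ∃ b, a ≤ b ∧ n ≤ b ∧ b ≤ M ∧
      V b - V a - ((c₁ * η + e₀) * u * (b - a : ℕ) + (c₂ * u + e₁) / η * ∑ j ∈ Ico a b, f j +
        c₃ * (L b - L a)) ≤ N b - N a := by
  -- induction on `M - a`
  have key : ∀ k a, a ≤ M → M - a ≤ k → ∃ b, a ≤ b ∧ n ≤ b ∧ b ≤ M ∧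
      V b - V a - ((c₁ * η + e₀) * u * (b - a : ℕ) + (c₂ * u + e₁) / η * ∑ j ∈ Ico a b, f j +
        c₃ * (L b - L a)) ≤ N b - N a := by
    intro k
    induction k with
    | zero =>
      intro a ha hk
      have : a = M := by omega
      subst this
      exact ⟨a, le_rfl, hnM, le_rfl, by simp⟩
    | succ k ih =>
      intro a ha hk
      by_cases han : n ≤ a
      · exact ⟨a, le_rfl, han, ha, by simp⟩
      have han := not_le.1 han
      by_cases hg : Gr f η M a
      · -- a full step
        obtain ⟨b, hab, hnb, hbM, hb⟩ := ih (a + 1) (by omega) (by omega)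
        refine ⟨b, by omega, hnb, hbM, ?_⟩
        have h1 := hS a han hg
        have h2 : f a ≤ η := hg.le (by omega)
        have h3 : ∑ j ∈ Ico a b, f j = f a + ∑ j ∈ Ico (a + 1) b, f j := by
          rw [← Finset.sum_Ico_consecutive f (by omega : a ≤ a + 1) hab]
          simp
        have h4 : ((b - a : ℕ) : ℝ) = (b - (a + 1) : ℕ) + 1 := by
          have : b - a = b - (a + 1) + 1 := by omega
          rw [this]
          push_cast
          ring
        have h5 : c₃ * (L b - L a) = c₃ * (L b - L (a + 1)) + c₃ * (L (a + 1) - L a) := by ring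
        have h6 : 0 ≤ c₃ * (L (a + 1) - L a) :=
          mul_nonneg hc₃ (sub_nonneg.2 (hL a (a + 1) (by omega) (by omega)))
        have h7 : 0 ≤ (c₂ * u + e₁) / η * f a :=
          mul_nonneg (div_nonneg (by positivity) hη.le) (hf a)
        have h8 : (c₁ * f a + e₀) * u ≤ (c₁ * η + e₀) * u := by
          refine mul_le_mul_of_nonneg_right ?_ hu
          have := mul_le_mul_of_nonneg_left h2 hc₁
          linarith
        rw [h3, h4, h5, mul_add ((c₂ * u + e₁) / η)]
        have h9 : (c₁ * η + e₀) * u * (((b - (a + 1) : ℕ) : ℝ) + 1) =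
          (c₁ * η + e₀) * u * (b - (a + 1) : ℕ) + (c₁ * η + e₀) * u := by ring
        rw [h9]
        linarith
      · -- a jump
        obtain ⟨b, hab, hbM, hbg, hsum⟩ := jump ha hg
        obtain ⟨b', hbb', hnb', hbM', hb'⟩ := ih b hbM (by omega)
        refine ⟨b', by omega, hnb', hbM', ?_⟩
        have h1 := hX a b han hab hbM hbg
        have h3 : ∑ j ∈ Ico a b', f j = ∑ j ∈ Ico a b, f j + ∑ j ∈ Ico b b', f j := by
          rw [← Finset.sum_Ico_consecutive f hab.le hbb']
        have h4 : ((b' - a : ℕ) : ℝ) = (b' - b : ℕ) + (b - a : ℕ) := by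
          have : b' - a = b' - b + (b - a) := by omega
          rw [this]
          push_cast
          ring
        have h5 : c₃ * (L b' - L a) = c₃ * (L b' - L b) + c₃ * (L b - L a) := by ring
        have h6 : (1 : ℝ) ≤ (b - a : ℕ) := by
          have : 1 ≤ b - a := by omega
          exact_mod_cast this
        have h7 : c₂ * (b - a : ℕ) * u + e₁ ≤ (c₂ * u + e₁) / η * ∑ j ∈ Ico a b, f j := by
          have h8 : (c₂ * u + e₁) / η * (η * (b - a : ℕ)) ≤
              (c₂ * u + e₁) / η * ∑ j ∈ Ico a b, f j :=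
            mul_le_mul_of_nonneg_left hsum.le (div_nonneg (by positivity) hη.le)
          have h9 : (c₂ * u + e₁) / η * (η * (b - a : ℕ)) = (c₂ * u + e₁) * (b - a : ℕ) := by
            field_simp
          rw [h9] at h8
          refine le_trans ?_ h8
          have : e₁ * 1 ≤ e₁ * (b - a : ℕ) := mul_le_mul_of_nonneg_left h6 he₁
          nlinarith
        have h10 : 0 ≤ (c₁ * η + e₀) * u * (b - a : ℕ) := by positivity
        rw [h3, h4, h5, mul_add ((c₂ * u + e₁) / η)]
        have h11 : (c₁ * η + e₀) * u * (((b' - b : ℕ) : ℝ) + (b - a : ℕ)) =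
          (c₁ * η + e₀) * u * (b' - b : ℕ) + (c₁ * η + e₀) * u * (b - a : ℕ) := by ring
        rw [h11]
        linarith
  intro a ha
  exact key (M - a) a ha le_rfl

end Pool.PC.Tel
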