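import Pool.Agent.H81.PC.LxT
import Pool.Agent.H92.PC.Tele

/-!
# Plan C: the telescope over the windows of one progression, one velocity scale

`ctx F q i0 w l z`: the context at the window `w` with the frame `z` of precision `l`, positions to
at most `J` digits. `nfo` of the contexts grows like the volume, from the first window to a window
beyond `n`, if the boxes are full at the good windows `j < n` and the base rows are full at all
good windows.
-/

set_option autoImplicit false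

namespace Pool.PC

open Finset Real
open Pool.Agent.H49.Ent Pool.Agent.H32.Dense Pool.STK Pool.KA Pool.KSAT Pool.K2S

variable {m J : ℕ}

/-- The context at the window `w`, velocity scale `q`, frame `z` of precision `l`. -/
noncomputable def ctx (F : Fam m J) (q : ℕ) (i0 : Fin m) (w l : ℕ) (z : F.Ω → Fin m → ℝ) :=
  tlb F w q l (min (q + w + l) J) i0 z

/-- The digits of the position in the context (dimension two). -/
def vol (J q w l : ℕ) : ℕ := q + w + min (q + w + l) J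

/-- The row of the base position after the window `v`, `X` digits, in the label `b`. -/
noncomputable def rowe (F : Fam m J) {S : Type} (q X : ℕ) (i0 : Fin m) (v : ℕ) (b : F.Ω → S) : ℝ :=
  CH F.p (bps F (v + X) (q + (v + X)) i0) (fun ω => (F.T1 (v + X) ω, b ω))

/-- **The frames of a progression of windows** `w₁ + j X`, `j ≤ M`. -/
structure Lin (F : Fam m J) (i0 : Fin m) (q X M w₁ : ℕ) (l : ℕ → ℕ)
    (z : ℕ → F.Ω → Fin m → ℝ) (C₀ : ℝ) : Prop where
  top : q + (w₁ + M * X) ≤ J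
  mx : J < q + (w₁ + (M + 1) * X)
  lm : ∀ i j, i ≤ j → l i ≤ l j
  grid : ∀ j ω i, ∃ k : ℤ, z j ω i = k / 2 ^ l j
  z0 : ∀ j ω, z j ω i0 = 0
  det : ∀ j, j ≤ M → Det F.p (slam F (w₁ + j * X)) (z j)
  near : ∀ i j, i ≤ j → j ≤ M → ∀ ω, 0 < F.p ω → ∀ k, k ≠ i0 →
    |z i ω k - z j ω k| ≤ C₀ / 2 ^ l i

/-- The constant of nested labels. -/
noncomputable def cnst (m : ℕ) (C₀ : ℝ) : ℝ :=
  m * Real.log (2 * (2 * C₀) + 1) + 2 * (m * Real.log (2 * (2 * C₀ + 3) + 1))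

theorem cnst_nonneg (m : ℕ) {C₀ : ℝ} (h : 0 ≤ C₀) : 0 ≤ cnst m C₀ := by
  have h1 : 0 ≤ Real.log (2 * (2 * C₀) + 1) := Real.log_nonneg (by linarith only [h])
  have h2 : 0 ≤ Real.log (2 * (2 * C₀ + 3) + 1) := Real.log_nonneg (by linarith only [h])
  unfold cnst
  positivity

section lin

variable {F : Fam m J} {i0 : Fin m} {q X M w₁ : ℕ} {l : ℕ → ℕ} {z : ℕ → F.Ω → Fin m → ℝ} {C₀ : ℝ}

theorem Lin.wJ (h : Lin F i0 q X M w₁ l z C₀) {j : ℕ} (hj : j ≤ M) : w₁ + j * X ≤ J := by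
  have h1 := h.top
  have h2 := Nat.mul_le_mul_right X hj
  omega

/-- The contexts are nested. -/
theorem Lin.nest (h : Lin F i0 q X M w₁ l z C₀) (hC₀ : 0 ≤ C₀) {a b : ℕ} (hab : a ≤ b)
    (hb : b ≤ M) : CH F.p (ctx F q i0 (w₁ + a * X) (l a) (z a))
      (ctx F q i0 (w₁ + b * X) (l b) (z b)) ≤ cnst m C₀ := by
  have h1 := Nat.mul_le_mul_right X hab
  have h2 := h.lm a b hab
  exact tnest F.isLaw hC₀ (by omega) (h.wJ hb) h2 (min_le_left _ _)
    (min_le_min_right J (by omega)) (h.grid a) (h.z0 a) (h.near a b hab hb)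

/-- The contexts are functions of the line and the window. -/
theorem ctx_det {w l : ℕ} {z : F.Ω → Fin m → ℝ} (hz : Det F.p (slam F w) z) :
    Det F.p (slam F w) (ctx F q i0 w l z) := by
  intro ω ω' hω hω' h
  have hz' := hz ω ω' hω hω' h
  unfold slam at h
  simp only [Prod.mk.injEq] at h
  obtain ⟨h1, h2, h3⟩ := h
  have hu : F.u ω = F.u ω' := (Prod.ext_iff.mp h1).1
  have hd : F.d ω = F.d ω' := (Prod.ext_iff.mp h1).2
  have hx : F.x1 w ω = F.x1 w ω' := by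
    funext i
    unfold Fam.x1
    rw [hu, hd, h3]
  refine tlb_mk h3 hz' ?_ ?_ h2
  · funext j
    unfold pps
    rw [hz', hx]
  · unfold rvs
    rw [hz', hd]

theorem ctx_T1 {w l : ℕ} {z : F.Ω → Fin m → ℝ} {ω ω' : F.Ω}
    (h : ctx F q i0 w l z ω = ctx F q i0 w l z ω') : F.T1 w ω = F.T1 w ω' := (tlb_ext h).1

theorem ctx_Z {w l : ℕ} {z : F.Ω → Fin m → ℝ} {ω ω' : F.Ω}
    (h : ctx F q i0 w l z ω = ctx F q i0 w l z ω') : F.Z ω = F.Z ω' := (tlb_ext h).2.2.2.2

theorem ctx_bps {w l : ℕ} {z : F.Ω → Fin m → ℝ} {ω ω' : F.Ω}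
    (h : ctx F q i0 w l z ω = ctx F q i0 w l z ω') :
    bps F w (q + w) i0 ω = bps F w (q + w) i0 ω' := by
  have h1 := congrFun (tlb_ext h).2.2.1 i0
  unfold pps at h1
  rw [if_pos rfl, if_pos rfl] at h1
  exact h1

/-- The information is monotone. -/
theorem Lin.mono (h : Lin F i0 q X M w₁ l z C₀) (hC₀ : 0 ≤ C₀) {a b : ℕ} (hab : a ≤ b)
    (hb : b ≤ M) : nfo F (w₁ + a * X) (ctx F q i0 (w₁ + a * X) (l a) (z a)) ≤
      nfo F (w₁ + b * X) (ctx F q i0 (w₁ + b * X) (l b) (z b)) + cnst m C₀ := by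
  have h1 := nfo_step F (w := w₁ + a * X) (v := w₁ + b * X)
    (ctx F q i0 (w₁ + a * X) (l a) (z a)) (ctx F q i0 (w₁ + b * X) (l b) (z b))
    (ctx_det (h.det a (hab.trans hb))) (fun _ _ _ _ e => ctx_Z e) (fun _ _ _ _ e => ctx_T1 e)
  have h2 := h.nest hC₀ hab hb
  have h3 : 0 ≤ CH F.p (ctx F q i0 (w₁ + b * X) (l b) (z b)) (fun ω =>
      (F.T1 (w₁ + b * X) ω, ctx F q i0 (w₁ + a * X) (l a) (z a) ω)) :=
    CH_nonneg F.isLaw.nonneg _ _
  linarith only [h1, h2, h3]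

/-- Rows given a label which is nearly a function of another one. -/
theorem rowe_of {S T : Type} (v : ℕ) (c : F.Ω → S) (d : F.Ω → T) {K : ℝ}
    (hK : CH F.p c d ≤ K) : rowe F q X i0 v d - K ≤ rowe F q X i0 v c := by
  have hp := F.isLaw.nonneg
  unfold rowe
  obtain ⟨R, hR⟩ : ∃ R, R = bps F (v + X) (q + (v + X)) i0 := ⟨_, rfl⟩
  rw [← hR]
  have h1 := CH_le_add hp R c (fun ω => (F.T1 (v + X) ω, d ω))
  have h2 : CH F.p c (fun ω => (F.T1 (v + X) ω, d ω)) ≤ CH F.p c d :=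
    CH_mono_cond hp fun ω ω' _ _ e => (Prod.ext_iff.mp e).2
  have h3 : CH F.p R (fun ω => (c ω, (F.T1 (v + X) ω, d ω))) ≤
      CH F.p R (fun ω => (F.T1 (v + X) ω, c ω)) :=
    CH_mono_cond hp fun ω ω' _ _ e => by
      simp only [Prod.mk.injEq] at e ⊢
      tauto
  linarith only [hK, h1, h2, h3]

/-- The conditions of the rows of LEMMA X are nearly functions of the contexts. -/
theorem Lin.cxn (h : Lin F i0 q X M w₁ l z C₀) (hC₀ : 0 ≤ C₀) {a b c : ℕ} (hab : a ≤ b)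
    (hbc : b ≤ c) (hc : c ≤ M) :
    CH F.p (cxt F q i0 (ctx F q i0 (w₁ + b * X) (l b) (z b))
      (ctx F q i0 (w₁ + a * X) (l a) (z a)) (w₁ + c * X))
      (ctx F q i0 (w₁ + c * X) (l c) (z c)) ≤ 2 * cnst m C₀ := by
  have hp := F.isLaw.nonneg
  obtain ⟨G, hG⟩ : ∃ G, G = ctx F q i0 (w₁ + c * X) (l c) (z c) := ⟨_, rfl⟩
  obtain ⟨B, hB⟩ : ∃ B, B = ctx F q i0 (w₁ + b * X) (l b) (z b) := ⟨_, rfl⟩
  obtain ⟨A, hA⟩ : ∃ A, A = ctx F q i0 (w₁ + a * X) (l a) (z a) := ⟨_, rfl⟩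
  have h1 : CH F.p B G ≤ cnst m C₀ := by rw [hB, hG]; exact h.nest hC₀ hbc hc
  have h2 : CH F.p A G ≤ cnst m C₀ := by rw [hA, hG]; exact h.nest hC₀ (hab.trans hbc) hc
  rw [← hB, ← hA, ← hG]
  have h3 := CH_subadd hp B A G
  have h4 : CH F.p (cxt F q i0 B A (w₁ + c * X)) G ≤ CH F.p (fun ω => (B ω, A ω)) G := by
    refine CH_mono_left hp fun ω ω' _ _ e => ?_
    have e1 := Prod.ext_iff.mp e
    have e2 : G ω = G ω' := e1.2
    rw [hG] at e2
    exact Prod.ext e1.1 (Prod.ext (ctx_T1 e2) (ctx_bps e2))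
  linarith only [h1, h2, h3, h4]

end lin

/-- The volume of the context `j` of the progression, natural logarithms. -/
noncomputable def vl (J q w₁ X : ℕ) (l : ℕ → ℕ) (j : ℕ) : ℝ :=
  (vol J q (w₁ + j * X) (l j) : ℝ) * Real.log 2

/-- The information of the context `j` of the progression. -/
noncomputable def ni (F : Fam m J) (i0 : Fin m) (q w₁ X : ℕ) (l : ℕ → ℕ)
    (z : ℕ → F.Ω → Fin m → ℝ) (j : ℕ) : ℝ :=
  nfo F (w₁ + j * X) (ctx F q i0 (w₁ + j * X) (l j) (z j))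

/-- **The jump**: LEMMA X from the context `a` to a context `b` which is good to its right. -/
theorem Lin.jump {C₀ : ℝ} (hC₀ : 0 ≤ C₀) : ∃ C : ℝ, 0 ≤ C ∧ ∀ {J : ℕ} (F : Fam 2 J) (i0 : Fin 2)
    (q X M w₁ : ℕ) (l : ℕ → ℕ) (z : ℕ → F.Ω → Fin 2 → ℝ) (_ : Lin F i0 q X M w₁ l z C₀)
    (f : ℕ → ℝ) (η er p₁ : ℝ) (x a b : ℕ), (∀ j, 0 ≤ f j) → 0 ≤ η → η ≤ 1 → 0 ≤ er → 0 ≤ p₁ →
    p₁ ≤ 1 → 0 < X → x ≤ X → a < b → b ≤ M → q + (w₁ + a * X) + l a ≤ J → Tel.Gr f η M b →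
    (∀ j, b ≤ j → j < M → f j < 1 → X * Real.log 2 - er ≤
      rowe F q X i0 (w₁ + j * X) (ctx F q i0 (w₁ + j * X) (l j) (z j))) →
    (l a + x + X ≤ l b → Pe (dbl F.p (slam F (w₁ + a * X))) (fun u => ∀ k, k ≠ i0 →
      |z b u.1 k - z b u.2 k| ≤ 1 / 2 ^ (l a + x)) ≤ p₁) →
    vl J q w₁ X l b - vl J q w₁ X l a - (7 * Real.log 2 * ((b - a : ℕ) * X) +
      ((η + 2 * p₁) * Real.log 2 + (er + C) / X) * ((l b : ℝ) - l a) + C) ≤
      ni F i0 q w₁ X l z b - ni F i0 q w₁ X l z a := by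
  obtain ⟨C, hC, hlx⟩ := lx_top 2 C₀ hC₀
  have hc := cnst_nonneg 2 hC₀
  obtain ⟨u, hu⟩ : ∃ u, u = Real.log 2 := ⟨_, rfl⟩
  have hu0 : 0 < u := by rw [hu]; exact Real.log_pos (by norm_num)
  obtain ⟨K, hK⟩ : ∃ K, K = 2 * C + 2 * cnst 2 C₀ := ⟨_, rfl⟩
  have hK0 : 0 ≤ K := by rw [hK]; positivity
  refine ⟨K, hK0, ?_⟩
  intro J F i0 q X M w₁ l z hL f η er p₁ x a b hf hη hη1 her hp₁ hp₁1 hX hx hab hbM hJ hg hrow hTH
  rw [← hu] at hrow ⊢
  have hXr : (0 : ℝ) < X := by exact_mod_cast hX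
  -- the numbers
  obtain ⟨y, hy⟩ : ∃ y, y = (b - a) * X := ⟨_, rfl⟩
  have hyX : X ≤ y := by
    rw [hy]
    exact Nat.le_mul_of_pos_left X (by omega)
  have hwb : w₁ + b * X = w₁ + a * X + y := by
    rw [hy, Nat.sub_mul]
    have := Nat.mul_le_mul_right X hab.le
    omega
  have hll := hL.lm a b hab.le
  obtain ⟨Pa, hPa⟩ : ∃ Pa, Pa = q + (w₁ + a * X) + l a := ⟨_, rfl⟩
  obtain ⟨Pb, hPb⟩ : ∃ Pb, Pb = min (q + (w₁ + b * X) + l b) J := ⟨_, rfl⟩
  have hPab : Pa ≤ Pb := by rw [hPa, hPb]; exact le_min (by omega) hJ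
  have hVa : vl J q w₁ X l a = ((q + (w₁ + a * X) : ℕ) + (Pa : ℝ)) * u := by
    unfold vl vol
    rw [min_eq_left hJ, ← hPa, ← hu]
    push_cast
    ring
  have hVb : vl J q w₁ X l b = ((q + (w₁ + a * X) : ℕ) + (y : ℝ) + (Pb : ℝ)) * u := by
    unfold vl vol
    rw [← hPb, ← hu, hwb]
    push_cast
    ring
  obtain ⟨D, hD⟩ : ∃ D, Pb = Pa + D := Nat.exists_eq_add_of_le hPab
  have hVV : vl J q w₁ X l b - vl J q w₁ X l a = ((y : ℝ) + D) * u := by
    rw [hVa, hVb, hD]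
    push_cast
    ring
  have hyr : (((b - a : ℕ) : ℝ) * X) = (y : ℝ) := by rw [hy]; push_cast; ring
  have hyXr : (X : ℝ) ≤ y := by exact_mod_cast hyX
  have hxr : (x : ℝ) ≤ X := by exact_mod_cast hx
  have hllr : (0 : ℝ) ≤ (l b : ℝ) - l a := by
    have : (l a : ℝ) ≤ l b := by exact_mod_cast hll
    linarith only [this]
  have hc3 : 0 ≤ ((η + 2 * p₁) * u + (er + K) / X) * ((l b : ℝ) - l a) := by positivity
  rw [hVV, hyr]
  have hmono := hL.mono hC₀ hab.le hbM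
  by_cases hsm : D ≤ 2 * y + x + X
  · -- a small jump
    have h1 : (D : ℝ) ≤ 2 * y + x + X := by exact_mod_cast hsm
    have h2 : ((y : ℝ) + D) * u ≤ 7 * u * y := by nlinarith only [hu0, hXr, hyXr, hxr, h1]
    have h3 : cnst 2 C₀ ≤ K := by rw [hK]; linarith only [hC, hc]
    unfold ni
    linarith only [hC, hc, hK, hc3, hmono, h2]
  have hsm := not_le.1 hsm
  obtain ⟨δ, hδ⟩ : ∃ δ, δ = D - x - y := ⟨_, rfl⟩
  obtain ⟨n, hn⟩ : ∃ n, n = (δ - y) / X := ⟨_, rfl⟩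
  have hnX : n * X ≤ δ - y := by rw [hn]; exact Nat.div_mul_le_self _ _
  have hnX' : δ - y < (n + 1) * X := by
    rw [hn, mul_comm]
    exact Nat.lt_mul_div_succ _ hX
  have hDl : D ≤ y + (l b - l a) := by
    have : Pb ≤ q + (w₁ + b * X) + l b := by rw [hPb]; exact min_le_left _ _
    omega
  have hPbJ : Pb ≤ J := by rw [hPb]; exact min_le_right _ _
  have hbn : b + n ≤ M := by
    by_contra hcon
    have h1 : M + 1 ≤ b + n := by omega
    have h2 := Nat.mul_le_mul_right X h1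
    have h3 := hL.mx
    have h4 : (b + n) * X = b * X + n * X := by ring
    omega
  have h := hlx J F i0 (w₁ + a * X) y q X n (l a) (l b) Pa Pb x δ (z a) (z b) p₁
    (by omega) (by omega) (by omega) (by omega) (by omega) hPab (hL.grid a) (hL.z0 a)
    (hL.det a (by omega)) (hL.near a b hab.le hbM) (hTH (by omega))
  -- the rows
  have hsum : (n : ℝ) * (X * u - er - 2 * cnst 2 C₀) - X * u * (η * n) ≤
      ∑ i ∈ Finset.range n, CH F.p
        (bps F (w₁ + a * X + y + (i + 1) * X) (q + (w₁ + a * X + y + (i + 1) * X)) i0)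
        (fun ω => (F.T1 (w₁ + a * X + y + (i + 1) * X) ω,
          cxt F q i0 (tlb F (w₁ + a * X + y) q (l b) Pb i0 (z b))
            (tlb F (w₁ + a * X) q (l a) Pa i0 (z a)) (w₁ + a * X + y + i * X) ω)) := by
    have one : ∀ i ∈ Finset.range n, X * u - er - 2 * cnst 2 C₀ - X * u * f (b + i) ≤ CH F.p
        (bps F (w₁ + a * X + y + (i + 1) * X) (q + (w₁ + a * X + y + (i + 1) * X)) i0)
        (fun ω => (F.T1 (w₁ + a * X + y + (i + 1) * X) ω,
          cxt F q i0 (tlb F (w₁ + a * X + y) q (l b) Pb i0 (z b))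
            (tlb F (w₁ + a * X) q (l a) Pa i0 (z a)) (w₁ + a * X + y + i * X) ω)) := by
      intro i hi
      have hi' : i < n := Finset.mem_range.1 hi
      have hbi : b + i < M := by omega
      have e1 : w₁ + a * X + y + i * X = w₁ + (b + i) * X := by
        rw [← hwb]
        ring
      have e2 : w₁ + a * X + y + (i + 1) * X = w₁ + (b + i) * X + X := by
        rw [← hwb]
        ring
      have h1 := rowe_of (F := F) (q := q) (X := X) (i0 := i0) (w₁ + (b + i) * X) _ _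
        (hL.cxn hC₀ hab.le (by omega : b ≤ b + i) hbi.le)
      have e3 : rowe F q X i0 (w₁ + (b + i) * X)
          (cxt F q i0 (ctx F q i0 (w₁ + b * X) (l b) (z b))
            (ctx F q i0 (w₁ + a * X) (l a) (z a)) (w₁ + (b + i) * X)) = CH F.p
        (bps F (w₁ + a * X + y + (i + 1) * X) (q + (w₁ + a * X + y + (i + 1) * X)) i0)
        (fun ω => (F.T1 (w₁ + a * X + y + (i + 1) * X) ω,
          cxt F q i0 (tlb F (w₁ + a * X + y) q (l b) Pb i0 (z b))
            (tlb F (w₁ + a * X) q (l a) Pa i0 (z a)) (w₁ + a * X + y + i * X) ω)) := by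
        unfold rowe ctx
        rw [← hPb, min_eq_left hJ, ← hPa, e1, e2, hwb]
      rw [← e3]
      by_cases hfi : f (b + i) < 1
      · have h2 := hrow (b + i) (by omega) hbi hfi
        have h3 : 0 ≤ X * u * f (b + i) := mul_nonneg (by positivity) (hf _)
        linarith only [h1, h2, h3]
      · have h2 : 1 ≤ f (b + i) := not_lt.1 hfi
        have h3 : 0 ≤ rowe F q X i0 (w₁ + (b + i) * X)
          (cxt F q i0 (ctx F q i0 (w₁ + b * X) (l b) (z b))
            (ctx F q i0 (w₁ + a * X) (l a) (z a)) (w₁ + (b + i) * X)) :=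
          CH_nonneg F.isLaw.nonneg _ _
        have h4 : X * u * 1 ≤ X * u * f (b + i) :=
          mul_le_mul_of_nonneg_left h2 (by positivity)
        linarith only [hc, her, h3, h4]
    refine le_trans ?_ (Finset.sum_le_sum one)
    rw [Finset.sum_sub_distrib, Finset.sum_const, Finset.card_range, nsmul_eq_mul,
      ← Finset.mul_sum]
    have h1 := hg n hbn
    rw [Finset.sum_Ico_eq_sum_range] at h1
    have e : b + n - b = n := by omega
    rw [e] at h1
    have h2 := mul_le_mul_of_nonneg_left h1 (show 0 ≤ X * u by positivity)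
    linarith only [h2]
  have hNa : nfo F (w₁ + a * X) (tlb F (w₁ + a * X) q (l a) Pa i0 (z a)) =
      ni F i0 q w₁ X l z a := by
    unfold ni ctx
    rw [min_eq_left hJ, ← hPa]
  have hNb : nfo F (w₁ + a * X + y) (tlb F (w₁ + a * X + y) q (l b) Pb i0 (z b)) =
      ni F i0 q w₁ X l z b := by
    unfold ni ctx
    rw [← hPb, hwb]
  rw [hNa, hNb, ← hu] at h
  -- arithmetic
  have a1 : (n : ℝ) * X ≤ δ - y := by
    have : n * X + y ≤ δ := by omega
    have h1 : ((n * X + y : ℕ) : ℝ) ≤ δ := by exact_mod_cast this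
    push_cast at h1
    linarith only [h1]
  have a2 : (δ : ℝ) - y - X ≤ n * X := by
    have : δ ≤ (n + 1) * X + y := by omega
    have h1 : (δ : ℝ) ≤ (((n + 1) * X + y : ℕ) : ℝ) := by exact_mod_cast this
    push_cast at h1
    linarith only [h1]
  have a3 : (D : ℝ) = δ + x + y := by
    have : D = δ + x + y := by omega
    rw [this]
    push_cast
    ring
  have a4 : (δ : ℝ) ≤ (l b : ℝ) - l a := by
    have : δ + l a ≤ l b := by omega
    have h1 : ((δ + l a : ℕ) : ℝ) ≤ l b := by exact_mod_cast this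
    push_cast at h1
    linarith only [h1]
  have a5 : (n : ℝ) ≤ ((l b : ℝ) - l a) / X := by
    rw [le_div_iff₀ hXr]
    have : (0 : ℝ) ≤ y := Nat.cast_nonneg _
    linarith only [hXr, hyXr, a1, a4]
  have hn0 : (0 : ℝ) ≤ n := Nat.cast_nonneg _
  have hδ0 : (0 : ℝ) ≤ δ := Nat.cast_nonneg _
  have hy0 : (0 : ℝ) ≤ y := Nat.cast_nonneg _
  -- the rows
  have b1 : ((δ : ℝ) - y - X) * u - η * δ * u ≤ n * (X * u) - X * u * (η * n) := by
    have e : n * (X * u) - X * u * (η * n) = (n * X) * u * (1 - η) := by ring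
    rw [e]
    have h1 : ((δ : ℝ) - y - X) * u * (1 - η) ≤ (n * X) * u * (1 - η) :=
      mul_le_mul_of_nonneg_right (mul_le_mul_of_nonneg_right a2 hu0.le) (by linarith only [hη1])
    have h2 : ((δ : ℝ) - y - X) * u - η * δ * u ≤ ((δ : ℝ) - y - X) * u * (1 - η) := by
      have h3 : 0 ≤ η * (y + X) * u := by positivity
      nlinarith only [h3]
    linarith only [h1, h2]
  have b2 : (n : ℝ) * (er + 2 * cnst 2 C₀) + C * n ≤ (er + K) / X * ((l b : ℝ) - l a) := by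
    have e : (er + K) / X * ((l b : ℝ) - l a) = (er + K) * (((l b : ℝ) - l a) / X) := by
      ring
    rw [e]
    have h1 : (er + K) * n ≤ (er + K) * (((l b : ℝ) - l a) / X) :=
      mul_le_mul_of_nonneg_left a5 (by linarith only [hC, hc, hK, her])
    have h2 : (n : ℝ) * (er + 2 * cnst 2 C₀) + C * n ≤ (er + K) * n := by
      rw [hK]
      nlinarith only [hC]
    linarith only [h1, h2]
  have b3 : (η + 2 * p₁) * u * δ ≤ (η + 2 * p₁) * u * ((l b : ℝ) - l a) :=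
    mul_le_mul_of_nonneg_left a4 (by positivity)
  have b4 : C * p₁ ≤ C := by
    have := mul_le_mul_of_nonneg_left hp₁1 hC
    linarith only [this]
  have b5 : 2 * C ≤ K := by rw [hK]; linarith only [hc]
  have b6 : ((y : ℝ) + D) * u = (δ * u + 2 * (y * u) + x * u) := by rw [a3]; ring
  have b7 : (x : ℝ) * u ≤ y * u := mul_le_mul_of_nonneg_right (hxr.trans hyXr) hu0.le
  have b8 : (X : ℝ) * u ≤ y * u := mul_le_mul_of_nonneg_right hyXr hu0.le
  rw [b6]
  nlinarith only [hc, hK, h, hsum, b1, b2, b3, b4, b7, b8]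

end Pool.PC
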