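import Pool.Agent.H92.PC.Alpha
import Pool.Agent.H64.PC.Stp

/-!
# Plan C: the part ALPHA of the telescope

`theta_alpha`: the frames are given at all windows; outside a small set of pairs `(w, q)` the boxes
are full and the base rows are full. Then there are a velocity scale `q` and a progression of
windows such that the information grows at least like the volume, until the window `wx` or the top
is reached.
-/

set_option autoImplicit false

namespace Pool.PC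

open Finset Real
open Pool.Agent.H49.Ent Pool.Agent.H32.Dense Pool.STK Pool.KA Pool.KSAT Pool.K2S

variable {J : ℕ}

/-- The context of the line of windows is the truncated context. -/
theorem ctx_cNf {F : Fam 2 J} {q w l : ℕ} {i0 : Fin 2} {z : F.Ω → Fin 2 → ℝ} (hq : q + w ≤ J)
    (hz0 : ∀ ω, z ω i0 = 0) : nfo F w (ctx F q i0 w l z) = cNf F w q l i0 z := by
  refine (Jmp.nfo_congr fun ω ω' => ?_).symm
  have h := Jmp.ctt_tlb (F := F) (w := w) (q := q) (l := l) (i0 := i0) (z := z) hq hz0 ω ω'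
  have e : q + l + w = q + w + l := by ring
  rw [e] at h
  exact h

theorem ctx_rowe {F : Fam 2 J} {q w l X : ℕ} {i0 : Fin 2} {z : F.Ω → Fin 2 → ℝ} (hq : q + w ≤ J)
    (hz0 : ∀ ω, z ω i0 = 0) : rowe F q X i0 w (ctx F q i0 w l z) =
      CH F.p (bps F (w + X) (q + (w + X)) i0) (fun ω => (F.T1 (w + X) ω, F.ctt w q l i0 z ω)) := by
  have h := fun ω ω' =>
    Jmp.ctt_tlb (F := F) (w := w) (q := q) (l := l) (i0 := i0) (z := z) hq hz0 ω ω'
  have e : q + l + w = q + w + l := by ring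
  rw [e] at h
  unfold rowe
  refine CH_congr F.isLaw.nonneg (fun _ _ _ _ h => (Prod.ext_iff.mp h).1)
    (fun _ _ _ _ h => (Prod.ext_iff.mp h).1) ?_ ?_
  · intro ω ω' _ _ hh
    exact Prod.ext (Prod.ext_iff.mp hh).1 ((h ω ω').2 (Prod.ext_iff.mp hh).2)
  · intro ω ω' _ _ hh
    exact Prod.ext (Prod.ext_iff.mp hh).1 ((h ω ω').1 (Prod.ext_iff.mp hh).2)

theorem vol_cVol {q w l : ℕ} (hq : q + w ≤ J) : (vol J q w l : ℝ) * Real.log 2 = cVol J w q l := by
  unfold vol cVol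
  have e1 : min (q + w) J = q + w := min_eq_left hq
  have e : q + l + w = q + w + l := by ring
  rw [e1, e]
  push_cast
  ring

/-- **The frames at all windows** `W₀ ≤ w`, `w ≤ W₁`, precision `vp w`. `al` is the own frame. -/
structure Frs (F : Fam 2 J) (i0 : Fin 2) (W₀ W₁ : ℕ) (vp : ℕ → ℕ) (z : ℕ → F.Ω → Fin 2 → ℝ)
    (al : F.Ω → Fin 2 → ℝ) (C₀ : ℝ) : Prop where
  wJ : W₁ ≤ J
  mono : ∀ w w', W₀ ≤ w → w ≤ w' → w' ≤ W₁ → vp w ≤ vp w'
  vJ : ∀ w, W₀ ≤ w → w ≤ W₁ → vp w ≤ J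
  grid : ∀ w, W₀ ≤ w → w ≤ W₁ → ∀ ω i, ∃ k : ℤ, z w ω i = k / 2 ^ vp w
  z0 : ∀ w, W₀ ≤ w → w ≤ W₁ → ∀ ω, z w ω i0 = 0
  det : ∀ w, W₀ ≤ w → w ≤ W₁ → Det F.p (slam F w) (z w)
  near : ∀ w, W₀ ≤ w → w ≤ W₁ → ∀ ω, 0 < F.p ω → ∀ k, k ≠ i0 →
    |al ω k - z w ω k| ≤ C₀ / 2 ^ vp w

/-- The frames of a progression. -/
theorem Frs.lin {F : Fam 2 J} {i0 : Fin 2} {W₀ W₁ : ℕ} {vp : ℕ → ℕ} {z : ℕ → F.Ω → Fin 2 → ℝ}
    {al : F.Ω → Fin 2 → ℝ} {C₀ : ℝ} (h : Frs F i0 W₀ W₁ vp z al C₀) (hC₀ : 0 ≤ C₀)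
    {q X M w₁ : ℕ} (h0 : W₀ ≤ w₁) (htop : q + (w₁ + M * X) ≤ J)
    (hmx : J < q + (w₁ + (M + 1) * X)) (hW : w₁ + M * X ≤ W₁) :
    Lin F i0 q X M w₁ (fun j => vp (w₁ + min j M * X)) (fun j => z (w₁ + min j M * X))
      (2 * C₀) := by
  have hw : ∀ j, W₀ ≤ w₁ + min j M * X ∧ w₁ + min j M * X ≤ W₁ := by
    intro j
    have h1 : min j M * X ≤ M * X := Nat.mul_le_mul_right X (min_le_right _ _)
    omega
  constructor
  · exact htop
  · exact hmx
  · intro i j hij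
    refine h.mono _ _ (hw i).1 ?_ (hw j).2
    have : min i M * X ≤ min j M * X := Nat.mul_le_mul_right X (min_le_min_right M hij)
    omega
  · exact fun j => h.grid _ (hw j).1 (hw j).2
  · exact fun j => h.z0 _ (hw j).1 (hw j).2
  · intro j hj
    have := h.det _ (hw j).1 (hw j).2
    rwa [min_eq_left hj] at this ⊢
  · intro i j hij hj ω hω k hk
    have g1 := h.near _ (hw i).1 (hw i).2 ω hω k hk
    have g2 := h.near _ (hw j).1 (hw j).2 ω hω k hk
    have g3 : vp (w₁ + min i M * X) ≤ vp (w₁ + min j M * X) := by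
      refine h.mono _ _ (hw i).1 ?_ (hw j).2
      have : min i M * X ≤ min j M * X := Nat.mul_le_mul_right X (min_le_min_right M hij)
      omega
    have g4 : C₀ / (2 : ℝ) ^ vp (w₁ + min j M * X) ≤ C₀ / 2 ^ vp (w₁ + min i M * X) :=
      div_le_div_of_nonneg_left hC₀ (by positivity) (pow_le_pow_right₀ (by norm_num) g3)
    show |z (w₁ + min i M * X) ω k - z (w₁ + min j M * X) ω k| ≤
      2 * C₀ / 2 ^ vp (w₁ + min i M * X)
    have e : 2 * C₀ / (2 : ℝ) ^ vp (w₁ + min i M * X) = C₀ / 2 ^ vp (w₁ + min i M * X) +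
      C₀ / 2 ^ vp (w₁ + min i M * X) := by ring
    rw [e]
    rw [abs_le] at g1 g2 ⊢
    constructor <;> linarith only [g1, g2, g4, g1.1, g1.2, g2.1, g2.2]

/-- **The part ALPHA.** Until the window `wx`, or the top. -/
theorem theta_alpha {C₀ : ℝ} (hC₀ : 0 ≤ C₀) : ∃ C : ℝ, 0 ≤ C ∧ ∀ {J : ℕ} (F : Fam 2 J)
    (i0 : Fin 2) (W₀ W₁ X qa qb wx x : ℕ) (vp : ℕ → ℕ) (z : ℕ → F.Ω → Fin 2 → ℝ)
    (al : F.Ω → Fin 2 → ℝ) (Bd : Finset (ℕ × ℕ)) (Sb : Finset ℕ) (ρ η er e₀ p₁ : ℝ),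
    Frs F i0 W₀ W₁ vp z al C₀ → J ≤ qa + W₁ → W₀ + X + qb ≤ J → qa < qb → 0 < X → x ≤ X →
    2 * C₀ ≤ 2 ^ X → 0 < η → η < 1 → 0 ≤ er → 0 ≤ e₀ → 0 ≤ p₁ → p₁ ≤ 1 →
    (Bd.card : ℝ) ≤ ρ * J * (qb - qa : ℕ) → Sb ⊆ Finset.range X → 2 * Sb.card ≤ X →
    (∀ w q, W₀ ≤ w → qa ≤ q → q < qb → (w, q) ∉ Bd → w < wx →
      q + vp (w + X) + (w + X) ≤ J →
      cVol J (w + X) q (vp (w + X)) - cVol J w q (vp w) - e₀ * X ≤
        cNf F (w + X) q (vp (w + X)) i0 (z (w + X)) - cNf F w q (vp w) i0 (z w)) →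
    (∀ w q, W₀ ≤ w → qa ≤ q → q < qb → (w, q) ∉ Bd → q + (w + X) ≤ J →
      X * Real.log 2 - er ≤ CH F.p (bps F (w + X) (q + (w + X)) i0)
        (fun ω => (F.T1 (w + X) ω, F.ctt w q (vp w) i0 (z w) ω))) →
    (∀ w, W₀ ≤ w → w + qa ≤ J → w < wx → (w - W₀) % X ∉ Sb →
      Pe (dbl F.p (slam F w)) (fun u => ∀ k, k ≠ i0 →
        |al u.1 k - al u.2 k| ≤ 2 / 2 ^ (vp w + x)) ≤ p₁) →
    ∃ q s b, qa ≤ q ∧ q < qb ∧ s < X ∧ s ∉ Sb ∧ q + (W₀ + s + b * X) ≤ J ∧
      (wx ≤ W₀ + s + b * X ∨ J < q + (W₀ + s + b * X) + X) ∧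
      cVol J (W₀ + s + b * X) q (vp (W₀ + s + b * X)) - cVol J (W₀ + s) q (vp (W₀ + s)) -
        (e₀ * J + (7 * Real.log 2 * X + C) / η * (2 * (ρ * J) / X + 1) +
          ((η + 2 * p₁) * Real.log 2 + 2 * ((er + C) / X)) * J) ≤
      cNf F (W₀ + s + b * X) q (vp (W₀ + s + b * X)) i0 (z (W₀ + s + b * X)) -
        cNf F (W₀ + s) q (vp (W₀ + s)) i0 (z (W₀ + s)) := by
  classical
  obtain ⟨C, hC, key⟩ := theta_line2 (C₀ := 2 * C₀) (by linarith)
  refine ⟨C, hC, ?_⟩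
  intro J F i0 W₀ W₁ X qa qb wx x vp z al Bd Sb ρ η er e₀ p₁ hF hJW hWJ hq hX hx hCX hη hη1 her
    he₀ hp₁ hp₁1 hB hSb hSb2 hS hR hTH
  obtain ⟨q, s, hq1, hq2, hs, hsS, hcard⟩ := choose_qs Bd Sb W₀ X qa qb J hX hq hSb hSb2 hB
  have hXr : (0 : ℝ) < X := by exact_mod_cast hX
  have hp0 := F.isLaw.nonneg
  obtain ⟨w₁, hw₁⟩ : ∃ w₁, w₁ = W₀ + s := ⟨_, rfl⟩
  obtain ⟨M, hM⟩ : ∃ M, M = (J - q - w₁) / X := ⟨_, rfl⟩
  have hMX : M * X ≤ J - q - w₁ := by rw [hM]; exact Nat.div_mul_le_self _ _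
  have hMX' : J - q - w₁ < (M + 1) * X := by
    rw [hM, mul_comm]
    exact Nat.lt_mul_div_succ _ hX
  have htop : q + (w₁ + M * X) ≤ J := by omega
  have hmx : J < q + (w₁ + (M + 1) * X) := by omega
  have hMJ : M ≤ J := by
    have : M * 1 ≤ M * X := Nat.mul_le_mul_left M hX
    omega
  have hL := hF.lin hC₀ (q := q) (X := X) (M := M) (w₁ := w₁) (by omega) htop hmx (by omega)
  -- the windows
  have hwj : ∀ j, j ≤ M → q + (w₁ + j * X) ≤ J := by
    intro j hj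
    have := Nat.mul_le_mul_right X hj
    omega
  -- the end
  obtain ⟨n, ⟨hnM, hn1⟩, hn2⟩ : ∃ n, (n ≤ M ∧ (n = M ∨ wx ≤ w₁ + n * X)) ∧
      ∀ j, j < n → w₁ + j * X < wx := by
    have hex : ∃ j, j = M ∨ wx ≤ w₁ + j * X := ⟨M, Or.inl rfl⟩
    refine ⟨Nat.find hex, ⟨Nat.find_min' hex (Or.inl rfl), Nat.find_spec hex⟩, ?_⟩
    intro j hj
    have h1 := Nat.find_min hex hj
    push Not at h1
    exact h1.2
  obtain ⟨f, hf⟩ : ∃ f : ℕ → ℝ, f = fun j => (if (w₁ + j * X, q) ∈ Bd then (1 : ℝ) else 0) :=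
    ⟨_, rfl⟩
  have hf0 : ∀ j, 0 ≤ f j := by
    intro j
    rw [hf]
    show (0 : ℝ) ≤ (if (w₁ + j * X, q) ∈ Bd then (1 : ℝ) else 0)
    split_ifs <;> norm_num
  have hfl : ∀ j, f j < 1 → (w₁ + j * X, q) ∉ Bd := by
    intro j hj h
    rw [hf] at hj
    simp only at hj
    rw [if_pos h] at hj
    linarith only [hj]
  have hfs : ∀ b, b ≤ M → ∑ j ∈ Finset.range b, f j ≤ 2 * (ρ * J) / X := by
    intro b hb
    rw [hf, ← Finset.sum_filter, Finset.sum_const, nsmul_eq_mul, mul_one]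
    refine le_trans ?_ hcard
    have : ((Finset.range b).filter fun j => (w₁ + j * X, q) ∈ Bd).card ≤
        ((Finset.range J).filter fun j => (W₀ + s + j * X, q) ∈ Bd).card := by
      refine Finset.card_le_card fun j hj => ?_
      rw [Finset.mem_filter, Finset.mem_range] at hj ⊢
      rw [← hw₁]
      exact ⟨by omega, hj.2⟩
    exact_mod_cast this
  -- the identifications
  have hmin : ∀ j, j ≤ M → min j M = j := fun j hj => min_eq_left hj
  have hni : ∀ j, j ≤ M → ni F i0 q w₁ X (fun j => vp (w₁ + min j M * X))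
      (fun j => z (w₁ + min j M * X)) j =
      cNf F (w₁ + j * X) q (vp (w₁ + j * X)) i0 (z (w₁ + j * X)) := by
    intro j hj
    unfold ni
    simp only [hmin j hj]
    refine ctx_cNf (hwj j hj) ?_
    have := hL.z0 j
    simp only [hmin j hj] at this
    exact this
  have hvl : ∀ j, j ≤ M → vl J q w₁ X (fun j => vp (w₁ + min j M * X)) j =
      cVol J (w₁ + j * X) q (vp (w₁ + j * X)) := by
    intro j hj
    unfold vl
    simp only [hmin j hj]
    exact vol_cVol (hwj j hj)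
  obtain ⟨b, hb1, hb2, hb3⟩ := key F i0 q X M w₁ _ _ hL f η er e₀ p₁ x n hf0 hη hη1 her he₀ hp₁
    hp₁1 hX hx hnM
    (by
      intro j hj hfj hJ'
      have h1 := hfl j hfj
      simp only [hmin (j + 1) (by omega)] at hJ'
      have h4 := hn2 j hj
      have e1 : w₁ + (j + 1) * X = w₁ + j * X + X := by ring
      rw [hni j (by omega), hni (j + 1) (by omega), hvl j (by omega), hvl (j + 1) (by omega), e1]
      rw [e1] at hJ'
      exact hS (w₁ + j * X) q (by omega) hq1 hq2 h1 h4 (by omega))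
    (by
      intro j hj hfj
      have h1 := hfl j hfj
      have h3 := hwj (j + 1) (by omega)
      have e1 : w₁ + (j + 1) * X = w₁ + j * X + X := by ring
      rw [e1] at h3
      have h4 := hR (w₁ + j * X) q (by omega) hq1 hq2 h1 h3
      simp only [hmin j (by omega : j ≤ M)]
      have hz0 := hL.z0 j
      simp only [hmin j (by omega : j ≤ M)] at hz0
      rw [ctx_rowe (hwj j (by omega)) hz0]
      exact h4)
    (by
      intro a b ha hab hbM hll
      simp only [hmin a (by omega : a ≤ M), hmin b hbM] at hll ⊢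
      have h1 := hn2 a ha
      have h2 := hTH (w₁ + a * X) (by omega) (by have := hwj a (by omega); omega) h1 (by
        have e : w₁ + a * X - W₀ = s + a * X := by omega
        rw [e, Nat.add_mul_mod_self_right, Nat.mod_eq_of_lt hs]
        exact hsS)
      refine le_trans ?_ h2
      refine Jmp.Pe_le (dbl_nonneg hp0) fun u hu h k hk => ?_
      have u1 : 0 < F.p u.1 := (dbl_fst hp0 : Marg _ F.p (fun u => u.1)).pos (dbl_nonneg hp0) hu
      have u2 : 0 < F.p u.2 := (dbl_snd hp0 : Marg _ F.p (fun u => u.2)).pos (dbl_nonneg hp0) hu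
      have hbW : w₁ + b * X ≤ W₁ := by have := hwj b hbM; omega
      have g1 := hF.near (w₁ + b * X) (by omega) hbW u.1 u1 k hk
      have g2 := hF.near (w₁ + b * X) (by omega) hbW u.2 u2 k hk
      have g3 := h k hk
      have g4 : C₀ / (2 : ℝ) ^ vp (w₁ + b * X) ≤ 1 / 2 * (1 / 2 ^ (vp (w₁ + a * X) + x)) := by
        have t1 : C₀ / (2 : ℝ) ^ vp (w₁ + b * X) ≤ C₀ / 2 ^ (vp (w₁ + a * X) + x + X) :=
          div_le_div_of_nonneg_left hC₀ (by positivity) (pow_le_pow_right₀ (by norm_num) hll)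
        refine t1.trans ?_
        rw [pow_add (2 : ℝ) (vp (w₁ + a * X) + x) X, ← div_div, div_le_iff₀ (by positivity)]
        have t2 : C₀ / (2 : ℝ) ^ (vp (w₁ + a * X) + x) ≤
            (2 ^ X / 2) / 2 ^ (vp (w₁ + a * X) + x) :=
          div_le_div_of_nonneg_right (by linarith only [hCX]) (by positivity)
        refine t2.trans (le_of_eq ?_)
        ring
      have e1 : 2 / (2 : ℝ) ^ (vp (w₁ + a * X) + x) =
        1 / 2 ^ (vp (w₁ + a * X) + x) + 1 / 2 ^ (vp (w₁ + a * X) + x) := by ring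
      rw [e1]
      rw [abs_le] at g1 g2 g3 ⊢
      constructor <;> linarith only [g1, g2, g3, g4, g1.1, g1.2, g2.1, g2.2, g3.1, g3.2])
  refine ⟨q, s, b, hq1, hq2, hs, hsS, ?_, ?_, ?_⟩
  · rw [← hw₁]
    exact hwj b hb2
  · rw [← hw₁]
    have hbX : n * X ≤ b * X := Nat.mul_le_mul_right X hb1
    rcases hn1 with h | h
    · right
      have : b = M := by omega
      subst this
      have e1 : (b + 1) * X = b * X + X := by ring
      omega
    · left
      omega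
  · rw [← hw₁]
    have e0 : w₁ + 0 * X = w₁ := by simp
    rw [hni b hb2, hni 0 (Nat.zero_le _), hvl b hb2, hvl 0 (Nat.zero_le _), e0] at hb3
    simp only [hmin b hb2, hmin 0 (Nat.zero_le M), e0] at hb3
    have hWb : w₁ + b * X ≤ W₁ := by have := hwj b hb2; omega
    have hvb : (vp (w₁ + b * X) : ℝ) ≤ J := by
      have := hF.vJ (w₁ + b * X) (by omega) hWb
      exact_mod_cast this
    have hv0 : (0 : ℝ) ≤ vp w₁ := Nat.cast_nonneg _
    have hu0 : 0 < Real.log 2 := Real.log_pos (by norm_num)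
    have hXb : (X : ℝ) * b ≤ J := by
      have h1 := hwj b hb2
      have : X * b ≤ J := by
        have h2 : X * b = b * X := mul_comm _ _
        omega
      exact_mod_cast this
    have k1 : (e₀ + (er + C) / X) * (X * b) ≤ (e₀ + (er + C) / X) * J :=
      mul_le_mul_of_nonneg_left hXb (by positivity)
    have k2 : (7 * Real.log 2 * X + C) / η * (∑ j ∈ Finset.range b, f j + 1) ≤
        (7 * Real.log 2 * X + C) / η * (2 * (ρ * J) / X + 1) :=
      mul_le_mul_of_nonneg_left (by linarith only [hfs, hb2, hfs b hb2]) (by positivity)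
    have k3 : ((η + 2 * p₁) * Real.log 2 + (er + C) / X) *
        ((vp (w₁ + b * X) : ℝ) - vp w₁) ≤
        ((η + 2 * p₁) * Real.log 2 + (er + C) / X) * J :=
      mul_le_mul_of_nonneg_left (by linarith only [hvb]) (by positivity)
    have k4 : ((η + 2 * p₁) * Real.log 2 + 2 * ((er + C) / X)) * J =
      ((η + 2 * p₁) * Real.log 2 + (er + C) / X) * J + (er + C) / X * J := by ring
    have k5 : (e₀ + (er + C) / X) * J = e₀ * J + (er + C) / X * J := by ring
    linarith only [hb3, k1, k2, k3]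

end Pool.PC
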