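import Pool.Agent.H92.PC.Theta
import Pool.Agent.H55.PC.Nmr
import Pool.Agent.H78.PC.ActD
import Pool.Agent.H83.PC.Sin
import Pool.Agent.H83.PC.Uni
import Pool.Agent.H67.PC.TimW

/-!
# Plan C: the inputs of the part ALPHA

`InS`, `InR`: the inputs (S), (R) of `theta_alpha` at `(w, q)`. `AllSStmt`, `RowSStmt`: the typed
inputs of the assembly of ALPHA.
-/

set_option autoImplicit false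

namespace Pool.PC

open Finset Real
open Pool.Agent.H49.Ent Pool.Agent.H32.Dense Pool.STK Pool.KA Pool.KSAT Pool.K2S Pool.UEG
open Pool.S6U Pool.OCG

variable {J : ℕ}

/-- The input (S) of `theta_alpha` at `(w, q)`. -/
def InS (F : Fam 2 J) (i0 : Fin 2) (vp : ℕ → ℕ) (z : ℕ → F.Ω → Fin 2 → ℝ) (X : ℕ) (e₀ : ℝ)
    (w q : ℕ) : Prop :=
  q + vp (w + X) + (w + X) ≤ J →
    cVol J (w + X) q (vp (w + X)) - cVol J w q (vp w) - e₀ * X ≤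
      cNf F (w + X) q (vp (w + X)) i0 (z (w + X)) - cNf F w q (vp w) i0 (z w)

/-- The input (R) of `theta_alpha` at `(w, q)`. -/
def InR (F : Fam 2 J) (i0 : Fin 2) (vp : ℕ → ℕ) (z : ℕ → F.Ω → Fin 2 → ℝ) (X : ℕ) (er : ℝ)
    (w q : ℕ) : Prop :=
  q + (w + X) ≤ J → X * Real.log 2 - er ≤ CH F.p (bps F (w + X) (q + (w + X)) i0)
    (fun ω => (F.T1 (w + X) ω, F.ctt w q (vp w) i0 (z w) ω))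

/-- The rate of the activity is at least `ca` on `[ya, yb]`, at the scale `χ`. -/
def Grw (c : Nm) (ca χ ya yb : ℝ) : Prop :=
  ∀ x y, ya ≤ x → x + χ ≤ y → y ≤ yb → ca * (y - x) ≤ c.act y - c.act x

/-- The times are good at the window `w`. -/
def Tgo (F : Fam 2 J) (X k' : ℕ) (ϖ εN : ℝ) (w : ℕ) : Prop :=
  ∀ R, w + X + k' ≤ R → R ≤ J → ∀ E : F.Ω → Prop, ϖ ≤ Pe F.p E →
    ∑ i ∈ Finset.range X, nr (Pool.Agent.H49.Ent.cond F.p E True) (slam (F.cot R) w)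
      ((F.cot R).wt w) k' i ≤ εN * X

/-- The cap of the frames. -/
noncomputable def cpx (c : Nm) (x : ℝ) : ℝ := c.n - c.q - x

/-- **(S) for all windows below the target**, outside few pairs. -/
def AllSStmt : Prop :=
  ∀ (ε ca ρ : ℝ), 0 < ε → 0 < ca → 0 < ρ → ∃ (ϖ εN κa : ℝ), 0 < ϖ ∧ ϖ ≤ 1 ∧ 0 < εN ∧ 0 < κa ∧
    κa ≤ 1 ∧ ∀ k' : ℕ, ∃ (κ Cq : ℝ) (nn : ℕ), 0 < κ ∧ κ ≤ 1 ∧ 0 < Cq ∧ 1 ≤ nn ∧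
    ∀ (c : Nm) (δ x : ℝ), c.Ok δ → 0 < x → x < c.n - c.q → ∀ d' : ℝ, 0 < d' →
    ∃ M : ℕ, 0 < M ∧ 1 / (M : ℝ) ≤ d' ∧ ∃ n₀ : ℕ, 1 ≤ n₀ ∧ ∀ n : ℕ, 1 ≤ n → n₀ ∣ n →
    ∃ h₀ : ℝ, 0 < h₀ ∧ ∀ h : ℝ, 0 < h → h ≤ h₀ → ∃ J₀ : ℕ, ∀ J ≥ J₀, ∀ (F : Fam 2 J)
    (B : ℕ → Bx F) (k : ℕ), (B k).Ok (fun _ => True) → Lvl F c n h B k →
    ∀ a : ℕ → F.Ω → ℝ, Lev F F.p (B k).a (vpc c (cpx c x) h n J) 0 J a →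
    ∀ t : ℕ, t ≤ n + 1 → (∀ i < t, c.rot (i / n) < cpx c x) →
    ∀ ya yb : ℝ, 0 ≤ ya → yb ≤ x / 2 → Grw c ca (κa * κ / (4 * M)) ya yb →
    ∀ X qa qb : ℕ, nn ∣ X → κ / 2 * (1 / M * J) ≤ X → X ≤ κ * (1 / M * J) →
      (B k).q + ya * J ≤ qa → (qb : ℝ) + X ≤ (B k).q + yb * J → Cq * (1 / M * J) ≤ (qb - qa : ℕ) →
    ∀ T : Finset ℕ, (T.card : ℝ) ≤ ρ * J → (∀ w, w ∉ T → Tgo F X k' ϖ εN w) →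
    ∃ Bd : Finset (ℕ × ℕ), (Bd.card : ℝ) ≤ 8 * ρ * J * (qb - qa : ℕ) ∧
      ∀ w q, w < msh J n t → w ≤ J → qa ≤ q → q < qb → (w, q) ∉ Bd →
        InS F (B k).i0 (vpc c (cpx c x) h n J) (fun w => zv (B k).i0 (a w)) X ε w q

/-- **(R) for all windows**, outside few pairs. -/
def RowSStmt : Prop :=
  ∀ (ε ca ρ : ℝ), 0 < ε → 0 < ca → 0 < ρ → ∃ (ϖ εN κa : ℝ), 0 < ϖ ∧ ϖ ≤ 1 ∧ 0 < εN ∧ 0 < κa ∧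
    κa ≤ 1 ∧ ∀ k' : ℕ, ∃ γ : ℝ, 0 < γ ∧ γ ≤ 1 ∧ ∀ (c : Nm) (δ x ξ : ℝ), c.Ok δ → 0 < x →
    x < c.n - c.q → 0 < ξ → ∃ n₀ : ℕ, 1 ≤ n₀ ∧ ∀ n : ℕ, n₀ ≤ n →
    ∃ h₀ : ℝ, 0 < h₀ ∧ ∀ h : ℝ, 0 < h → h ≤ h₀ → ∃ J₀ : ℕ, ∀ J ≥ J₀, ∀ (F : Fam 2 J)
    (B : ℕ → Bx F) (k : ℕ), (B k).Ok (fun _ => True) → Lvl F c n h B k →
    ∀ a : ℕ → F.Ω → ℝ, Lev F F.p (B k).a (vpc c (cpx c x) h n J) 0 J a →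
    ∀ ya yb : ℝ, 0 ≤ ya → yb ≤ x / 2 → Grw c ca (κa * ξ / 2) ya yb →
    ∀ X qa qb : ℕ, ξ * J ≤ X → X ≤ γ * J → (B k).q + ya * J ≤ qa →
      (qb : ℝ) + X ≤ (B k).q + yb * J → X ≤ γ * (qb - qa : ℕ) →
    ∀ T : Finset ℕ, (T.card : ℝ) ≤ ρ * J → (∀ w, w ∉ T → Tgo F X k' ϖ εN w) →
    ∃ Bd : Finset (ℕ × ℕ), (Bd.card : ℝ) ≤ 8 * ρ * J * (qb - qa : ℕ) ∧
      ∀ w q, w ≤ J → qa ≤ q → q < qb → (w, q) ∉ Bd →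
        InR F (B k).i0 (vpc c (cpx c x) h n J) (fun w => zv (B k).i0 (a w)) X (ε * X) w q

end Pool.PC
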