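import Pool.Agent.H92.PC.Cel

/-!
# Plan C: the assembly of the part ALPHA

`amain`: the hypotheses of `theta_alpha` from the data of one level.
-/

set_option autoImplicit false

namespace Pool.PC

open Finset Real
open Pool.Agent.H49.Ent Pool.Agent.H32.Dense Pool.STK Pool.KA Pool.KSAT Pool.K2S Pool.UEG
open Pool.S6U Pool.OCG

/-- **The main case of ALPHA**, the hypotheses of `theta_alpha`; `C` is the constant of
`theta_alpha`. -/
def AMn (C : ℝ) : Prop :=
  ∀ ε > 0, ∀ δ > 0, ∃ η > 0, ∀ K : ℕ, ∀ c : Nm, c.Ok δ → ∀ x > 0, ∃ n₀ : ℕ, 1 ≤ n₀ ∧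
    ∀ n : ℕ, 1 ≤ n → n₀ ∣ n → ∃ h > 0, h ≤ x / 8 ∧ ∃ J₀ : ℕ, ∀ J ≥ J₀, ∀ (F : Fam 2 J)
    (B : ℕ → Bx F) (k : ℕ), Tim F K η h → (B k).Ok (fun _ => True) → Lvl F c n h B k →
    ∀ t : ℕ, 1 ≤ t → t ≤ n + 1 → (∀ i < t, c.rot (i / n) < c.n - c.q - x) →
    ∃ (X qa qb x' : ℕ) (a : ℕ → F.Ω → ℝ) (Bd : Finset (ℕ × ℕ)) (Sb : Finset ℕ)
      (ρ ηt er e₀ p₁ : ℝ),
      Lev F F.p (B k).a (vpc c (cpx c x) h n J) 0 J a ∧ 0 < X ∧ (X : ℝ) ≤ ε * J ∧ x' ≤ X ∧
      2 * (2 : ℝ) ≤ 2 ^ X ∧ (B k).q ≤ qa ∧ (qb : ℝ) ≤ (B k).q + (x - 4 * h) * J ∧ qa < qb ∧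
      0 + X + qb ≤ J ∧ 0 < ηt ∧ ηt < 1 ∧ 0 ≤ er ∧ 0 ≤ e₀ ∧ 0 ≤ p₁ ∧ p₁ ≤ 1 ∧
      e₀ * J + (7 * Real.log 2 * X + C) / ηt * (2 * (ρ * J) / X + 1) +
        ((ηt + 2 * p₁) * Real.log 2 + 2 * ((er + C) / X)) * J ≤ ε * J ∧
      (Bd.card : ℝ) ≤ ρ * J * (qb - qa : ℕ) ∧ Sb ⊆ Finset.range X ∧ 2 * Sb.card ≤ X ∧
      (∀ w q, 0 ≤ w → qa ≤ q → q < qb → (w, q) ∉ Bd → w < msh J n t →
        InS F (B k).i0 (vpc c (cpx c x) h n J) (fun w => zv (B k).i0 (a w)) X e₀ w q) ∧
      (∀ w q, 0 ≤ w → qa ≤ q → q < qb → (w, q) ∉ Bd →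
        InR F (B k).i0 (vpc c (cpx c x) h n J) (fun w => zv (B k).i0 (a w)) X er w q) ∧
      (∀ w, 0 ≤ w → w + qa ≤ J → w < msh J n t → (w - 0) % X ∉ Sb →
        Pe (dbl F.p (slam F w)) (fun u => ∀ j, j ≠ (B k).i0 →
          |zv (B k).i0 (B k).a u.1 j - zv (B k).i0 (B k).a u.2 j| ≤
            2 / 2 ^ (vpc c (cpx c x) h n J w + x')) ≤ p₁)

/-- The budget. -/
theorem budget {C ε L ηt p₁ ρ er X J ξ : ℝ} (hC : 0 ≤ C) (_hε : 0 < ε) (hL : 0 < L) (hL1 : L ≤ 1)
    (hηt : 0 < ηt) (hη1 : ηt ≤ ε / 8) (_hp : 0 ≤ p₁) (hp1 : p₁ ≤ ε / 16)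
    (hρ0 : 0 ≤ ρ) (hρ : 14 * ρ ≤ ε / 8 * ηt) (_her : 0 ≤ er) (her1 : er ≤ ε / 16 * X) (hξ : 0 < ξ)
    (hX : ξ * J ≤ X) (hX1 : 7 * X ≤ ε / 8 * ηt * J) (hJ : 0 < J)
    (hJ1 : C / ηt * (2 * ρ / ξ + 1) + 2 * C / ξ ≤ ε / 4 * J) :
    ε / 8 * J + (7 * L * X + C) / ηt * (2 * (ρ * J) / X + 1) +
      ((ηt + 2 * p₁) * L + 2 * ((er + C) / X)) * J ≤ ε * J := by
  have hX0 : 0 < X := lt_of_lt_of_le (by positivity) hX
  have hJX : J / X ≤ 1 / ξ := by
    rw [div_le_div_iff₀ hX0 hξ, one_mul, mul_comm]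
    exact hX
  -- the terms
  have t1 : 7 * L * X / ηt * (2 * (ρ * J) / X) ≤ ε / 8 * J := by
    have e : 7 * L * X / ηt * (2 * (ρ * J) / X) = 14 * ρ * L * J / ηt := by
      field_simp
      ring
    rw [e, div_le_iff₀ hηt]
    have h1 : 14 * ρ * L ≤ 14 * ρ * 1 := mul_le_mul_of_nonneg_left hL1 (by positivity)
    have h2 : 14 * ρ * L ≤ ε / 8 * ηt := by linarith only [hρ, h1]
    have h3 := mul_le_mul_of_nonneg_right h2 hJ.le
    linarith only [h3]
  have t2 : 7 * L * X / ηt ≤ ε / 8 * J := by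
    rw [div_le_iff₀ hηt]
    have h1 : 7 * L * X ≤ 7 * 1 * X := by
      have := mul_le_mul_of_nonneg_right hL1 hX0.le
      linarith only [this]
    linarith only [hX1, h1]
  have t3 : C / ηt * (2 * (ρ * J) / X + 1) ≤ C / ηt * (2 * ρ / ξ + 1) := by
    refine mul_le_mul_of_nonneg_left ?_ (by positivity)
    have h1 : 2 * (ρ * J) / X = 2 * ρ * (J / X) := by ring
    have h2 : 2 * ρ / ξ = 2 * ρ * (1 / ξ) := by ring
    rw [h1, h2]
    have := mul_le_mul_of_nonneg_left hJX (by positivity : 0 ≤ 2 * ρ)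
    linarith only [this]
  have t4 : (ηt + 2 * p₁) * L ≤ ε / 4 := by
    have h1 : (ηt + 2 * p₁) * L ≤ (ηt + 2 * p₁) * 1 :=
      mul_le_mul_of_nonneg_left hL1 (by linarith only [hηt, _hp])
    linarith only [hη1, hp1, h1]
  have t5 : 2 * ((er + C) / X) * J ≤ ε / 8 * J + 2 * C / ξ := by
    have h1 : 2 * ((er + C) / X) * J = 2 * (er / X) * J + 2 * C * (J / X) := by ring
    have h2 : er / X ≤ ε / 16 := by
      rw [div_le_iff₀ hX0]
      exact her1
    have h3 := mul_le_mul_of_nonneg_right h2 hJ.le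
    have h4 := mul_le_mul_of_nonneg_left hJX (by positivity : 0 ≤ 2 * C)
    have h5 : 2 * C / ξ = 2 * C * (1 / ξ) := by ring
    rw [h1, h5]
    linarith only [h3, h4]
  have t6 := mul_le_mul_of_nonneg_right t4 hJ.le
  have e : (7 * L * X + C) / ηt * (2 * (ρ * J) / X + 1) =
      7 * L * X / ηt * (2 * (ρ * J) / X) + 7 * L * X / ηt + C / ηt * (2 * (ρ * J) / X + 1) := by
    ring
  rw [e]
  linarith only [hJ1, t1, t2, t3, t5, t6]

/-- The block length. -/
theorem pick_X {κ Jr M : ℝ} {nn : ℕ} (hnn : 1 ≤ nn) (hκ : 0 < κ) (hM : 0 < M)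
    (hJ : 2 * nn * M / κ ≤ Jr) (hJ0 : 0 < Jr) : ∃ X : ℕ, nn ∣ X ∧ κ / 2 * (1 / M * Jr) ≤ X ∧
      (X : ℝ) ≤ κ * (1 / M * Jr) := by
  have hn0 : (0 : ℝ) < nn := by exact_mod_cast hnn
  obtain ⟨y, hy⟩ : ∃ y, y = κ * (1 / M * Jr) := ⟨_, rfl⟩
  have hy0 : 0 < y := by rw [hy]; positivity
  refine ⟨nn * ⌊y / nn⌋₊, dvd_mul_right _ _, ?_, ?_⟩
  · have h1 : y / nn < ⌊y / nn⌋₊ + 1 := Nat.lt_floor_add_one _
    rw [div_lt_iff₀ hn0] at h1
    have h2 : 2 * (nn : ℝ) ≤ y := by
      rw [div_le_iff₀ hκ] at hJ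
      rw [hy]
      have e : κ * (1 / M * Jr) = κ * Jr / M := by ring
      rw [e, le_div_iff₀ hM]
      linarith only [hJ]
    have e : κ / 2 * (1 / M * Jr) = y / 2 := by rw [hy]; ring
    rw [e]
    push_cast
    linarith only [h1, h2]
  · have h1 : (⌊y / nn⌋₊ : ℝ) ≤ y / nn := Nat.floor_le (by positivity)
    have h2 := mul_le_mul_of_nonneg_left h1 hn0.le
    have e : (nn : ℝ) * (y / nn) = y := by field_simp
    rw [e] at h2
    rw [← hy]
    push_cast
    exact h2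

/-- The velocity cell. -/
theorem pick_q {ya yb Jr qk : ℝ} {X : ℕ} (hya : 0 ≤ ya) (hqk : 0 ≤ qk) (hJ : 0 ≤ Jr)
    (hX : qk + ya * Jr + X + 2 ≤ qk + yb * Jr) : ∃ qa qb : ℕ, qk + ya * Jr ≤ qa ∧
      (qb : ℝ) + X ≤ qk + yb * Jr ∧ (yb - ya) * Jr - X - 2 ≤ (qb - qa : ℕ) ∧ qa ≤ qb := by
  have h0 : 0 ≤ qk + ya * Jr := add_nonneg hqk (mul_nonneg hya hJ)
  have hXr : (0 : ℝ) ≤ X := Nat.cast_nonneg _
  have h1 : 0 ≤ qk + yb * Jr := by linarith only [hX, h0]
  obtain ⟨qa, hqa⟩ : ∃ qa, qa = ⌈qk + ya * Jr⌉₊ := ⟨_, rfl⟩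
  obtain ⟨qe, hqe⟩ : ∃ qe, qe = ⌊qk + yb * Jr⌋₊ := ⟨_, rfl⟩
  have a1 : qk + ya * Jr ≤ qa := by rw [hqa]; exact Nat.le_ceil _
  have a2 : (qa : ℝ) < qk + ya * Jr + 1 := by rw [hqa]; exact Nat.ceil_lt_add_one h0
  have a3 : (qe : ℝ) ≤ qk + yb * Jr := by rw [hqe]; exact Nat.floor_le h1
  have a4 : qk + yb * Jr < qe + 1 := by rw [hqe]; exact Nat.lt_floor_add_one _
  have a5 : (qa : ℝ) + X ≤ qe := by linarith only [hX, a2, a4]
  have a6 : qa + X ≤ qe := by exact_mod_cast a5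
  refine ⟨qa, qe - X, a1, ?_, ?_, by omega⟩
  · have : ((qe - X : ℕ) : ℝ) = qe - X := Nat.cast_sub (by omega)
    rw [this]
    linarith only [a3]
  · have : ((qe - X - qa : ℕ) : ℝ) = qe - X - qa := by
      rw [Nat.cast_sub (by omega), Nat.cast_sub (by omega)]
    rw [this]
    linarith only [a2, a4]

/-- `J` is at least finitely many reals. -/
theorem ex_max (l : List ℝ) : ∃ N : ℕ, ∀ J : ℕ, N ≤ J → ∀ y ∈ l, y ≤ J := by
  induction l with
  | nil => exact ⟨0, fun _ _ y hy => absurd hy (List.not_mem_nil)⟩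
  | cons a l ih =>
    obtain ⟨N, hN⟩ := ih
    obtain ⟨N', hN'⟩ := exists_nat_ge a
    refine ⟨max N N', fun J hJ y hy => ?_⟩
    rcases List.mem_cons.1 hy with h | h
    · rw [h]
      refine hN'.trans ?_
      exact_mod_cast (le_max_right _ _).trans hJ
    · exact hN J ((le_max_left _ _).trans hJ) y h

/-- **The main case of ALPHA.** -/
theorem amain (hS : AllSStmt) (hR : RowSStmt) {C : ℝ} (hC : 0 ≤ C) : AMn C := by
  classical
  intro ε hε δ hδ
  -- the numbers before `η`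
  obtain ⟨δ', hδ'⟩ : ∃ δ', δ' = min δ 1 := ⟨_, rfl⟩
  have hδ0 : 0 < δ' := by rw [hδ']; exact lt_min hδ one_pos
  have hδ1 : δ' ≤ 1 := by rw [hδ']; exact min_le_right _ _
  have hδδ : δ' ≤ δ := by rw [hδ']; exact min_le_left _ _
  obtain ⟨ηt, hηt⟩ : ∃ ηt, ηt = min (ε / 8) (1 / 2) := ⟨_, rfl⟩
  have hηt0 : 0 < ηt := by rw [hηt]; exact lt_min (by positivity) (by norm_num)
  have hηtε : ηt ≤ ε / 8 := by rw [hηt]; exact min_le_left _ _
  have hηt2 : ηt ≤ 1 / 2 := by rw [hηt]; exact min_le_right _ _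
  obtain ⟨p₁, hp₁⟩ : ∃ p₁, p₁ = min (ε / 16) 1 := ⟨_, rfl⟩
  have hp0 : 0 < p₁ := by rw [hp₁]; exact lt_min (by positivity) one_pos
  have hpε : p₁ ≤ ε / 16 := by rw [hp₁]; exact min_le_left _ _
  have hp1 : p₁ ≤ 1 := by rw [hp₁]; exact min_le_right _ _
  obtain ⟨ρ, hρ⟩ : ∃ ρ, ρ = ε * ηt / 3000 := ⟨_, rfl⟩
  have hρ0 : 0 < ρ := by rw [hρ]; positivity
  obtain ⟨ϖS, εS, κa, hϖS, hϖS1, hεS, hκa, hκa1, hS⟩ := hS (ε / 8) (δ' / 8) ρ (by positivity)
    (by positivity) hρ0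
  obtain ⟨ϖR, εR, κb, hϖR, hϖR1, hεR, hκb, hκb1, hR⟩ := hR (ε / 16) (δ' / 8) ρ (by positivity)
    (by positivity) hρ0
  obtain ⟨ϖ, hϖ⟩ : ∃ ϖ, ϖ = min ϖS ϖR := ⟨_, rfl⟩
  have hϖ0 : 0 < ϖ := by rw [hϖ]; exact lt_min hϖS hϖR
  have hϖs : ϖ ≤ ϖS := by rw [hϖ]; exact min_le_left _ _
  have hϖr : ϖ ≤ ϖR := by rw [hϖ]; exact min_le_right _ _
  obtain ⟨εN, hεN⟩ : ∃ εN, εN = min εS εR := ⟨_, rfl⟩
  have hεN0 : 0 < εN := by rw [hεN]; exact lt_min hεS hεR
  have hεNs : εN ≤ εS := by rw [hεN]; exact min_le_left _ _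
  have hεNr : εN ≤ εR := by rw [hεN]; exact min_le_right _ _
  obtain ⟨η, hη⟩ : ∃ η, η = min (εN / 4) (ρ * (ϖ * εN) / 2) := ⟨_, rfl⟩
  exact by
   have hη0 : 0 < η := by rw [hη]; exact lt_min (by positivity) (by positivity)
   have hη1 : η ≤ εN / 4 := by rw [hη]; exact min_le_left _ _
   have hη2 : η ≤ ρ * (ϖ * εN) / 2 := by rw [hη]; exact min_le_right _ _
   refine ⟨η, hη0, ?_⟩
   intro K c hc x hx
   by_cases hxc : x < c.n - c.q
   swap
   · refine ⟨1, le_rfl, fun n _ _ => ⟨x / 8, by positivity, le_rfl, 0, ?_⟩⟩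
     intro J _ F B k _ _ _ t ht _ hcap
     have h1 := hcap 0 (by omega)
     have h2 := hc.r0 ((0 : ℕ) / (n : ℝ))
     linarith only [hxc, h1, h2]
   have hc' : c.Ok δ' := ⟨hc.q0, hc.qn, hc.n1, hc.r0, hc.r1, hc.rm, hc.a0, hc.am, hc.al,
     fun y h0 h1 => (mul_le_mul_of_nonneg_right hδδ h0).trans (hc.ad y h0 h1)⟩
   have hcn := hc.n1
   have hcq := hc.q0
   obtain ⟨κ, Cq, nn, hκ, hκ1, hCq, hnn, hS⟩ := hS (K + 1)
   obtain ⟨γ, hγ, hγ1, hR⟩ := hR (K + 1)
   obtain ⟨C2, hC2⟩ : ∃ C2 : ℕ, C2 = ⌈Cq⌉₊ + ⌈1 / γ⌉₊ + 4 := ⟨_, rfl⟩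
   have hC2q : Cq + 1 / γ + 4 ≤ C2 := by
     have h1 := Nat.le_ceil Cq
     have h2 := Nat.le_ceil (1 / γ)
     rw [hC2]
     push_cast
     linarith only [h1, h2]
   have hγ' : 0 < 1 / γ := by positivity
   have hC20 : (0 : ℝ) < C2 := by linarith only [hCq, hC2q, hγ']
   obtain ⟨κm, hκm⟩ : ∃ κm, κm = min κa κb := ⟨_, rfl⟩
   have hκm0 : 0 < κm := by rw [hκm]; exact lt_min hκa hκb
   have hκma : κm ≤ κa := by rw [hκm]; exact min_le_left _ _
   exact by
    have hκmb : κm ≤ κb := by rw [hκm]; exact min_le_right _ _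
    obtain ⟨d₀, hd₀, hcell⟩ := Pool.WF.nm_cell hc' hδ0 hδ1 (x := x / 2) (by positivity)
      (by linarith only [hx, hxc, hcn]) (κ := κm * κ / (4 * C2)) (by positivity)
    obtain ⟨d', hd'⟩ : ∃ d', d' = min (d₀ / (2 * C2)) (min γ (ε / 8 * ηt / 7)) := ⟨_, rfl⟩
    have hd'0 : 0 < d' := by
      rw [hd']
      exact lt_min (by positivity) (lt_min hγ (by positivity))
    have hd'1 : d' ≤ d₀ / (2 * C2) := by rw [hd']; exact min_le_left _ _
    have hd'2 : d' ≤ γ := by rw [hd']; exact (min_le_right _ _).trans (min_le_left _ _)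
    have hd'3 : d' ≤ ε / 8 * ηt / 7 := by rw [hd']; exact (min_le_right _ _).trans (min_le_right _ _)
    obtain ⟨M, hM, hMd, n₀, hn₀, hS⟩ := hS c δ' x hc' hx hxc d' hd'0
    have hMr : (0 : ℝ) < M := by exact_mod_cast hM
    -- the velocity cell
    obtain ⟨ya, hya0, hyb, hgr⟩ := hcell ((C2 : ℚ) / M) (by
      have h1 : (0 : ℚ) < C2 := by exact_mod_cast hC20
      have h2 : (0 : ℚ) < M := by exact_mod_cast hM
      positivity) (by
      push_cast
      have h1 : (C2 : ℝ) / M = C2 * (1 / M) := by ring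
      rw [h1]
      have h2 := mul_le_mul_of_nonneg_left (hMd.trans hd'1) hC20.le
      have h3 : (C2 : ℝ) * (d₀ / (2 * C2)) = d₀ / 2 := by field_simp
      rw [h3] at h2
      linarith only [hd₀, h2])
    push_cast at hyb hgr
    obtain ⟨yr, hyr⟩ : ∃ yr : ℝ, yr = (ya : ℝ) := ⟨_, rfl⟩
    rw [← hyr] at hya0 hyb hgr
    have hya : 0 ≤ yr := by
      have : 0 < δ' * (x / 2) / 2 := by positivity
      linarith only [hya0, this]
    exact by
     obtain ⟨yb, hybE⟩ : ∃ yb, yb = yr + C2 / M := ⟨_, rfl⟩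
     rw [← hybE] at hyb hgr
     have hscale : κm * κ / (4 * C2) * (C2 / M) = κm * κ / (4 * M) := by
       field_simp
     rw [hscale] at hgr
     have hgrS : Grw c (δ' / 8) (κa * κ / (4 * M)) yr yb := by
       intro y₁ y₂ h1 h2 h3
       refine hgr y₁ y₂ h1 ?_ h3
       have : κm * κ / (4 * M) ≤ κa * κ / (4 * M) :=
         div_le_div_of_nonneg_right (mul_le_mul_of_nonneg_right hκma hκ.le) (by positivity)
       linarith only [h2, this]
     obtain ⟨ξ, hξ⟩ : ∃ ξ, ξ = κ / 2 * (1 / M) := ⟨_, rfl⟩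
     have hξ0 : 0 < ξ := by rw [hξ]; positivity
     have hgrR : Grw c (δ' / 8) (κb * ξ / 2) yr yb := by
       intro y₁ y₂ h1 h2 h3
       refine hgr y₁ y₂ h1 ?_ h3
       have h4 : κm * κ / (4 * M) ≤ κb * κ / (4 * M) :=
         div_le_div_of_nonneg_right (mul_le_mul_of_nonneg_right hκmb hκ.le) (by positivity)
       have h5 : κb * ξ / 2 = κb * κ / (4 * M) := by
         rw [hξ]
         field_simp
         ring
       linarith only [h2, h4, h5]
     obtain ⟨n₁, hn₁, hR⟩ := hR c δ' x ξ hc' hx hxc hξ0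
     obtain ⟨N₂, hN₂⟩ := exists_nat_ge (4 * (2 / ξ + 1) / ξ)
     refine ⟨n₀ * (n₁ * (N₂ + 1)), Nat.mul_pos hn₀ (Nat.mul_pos hn₁ (Nat.succ_pos _)), ?_⟩
     intro n hn hdvd
     have hnle : n₀ * (n₁ * (N₂ + 1)) ≤ n := Nat.le_of_dvd hn hdvd
     have hn1n : n₁ ≤ n := by
       have h1 : n₁ * 1 ≤ n₁ * (N₂ + 1) := Nat.mul_le_mul_left n₁ (by omega)
       have h2 : 1 * (n₁ * (N₂ + 1)) ≤ n₀ * (n₁ * (N₂ + 1)) := Nat.mul_le_mul_right _ hn₀
       omega
     exact by
      have hN2n : (N₂ : ℝ) ≤ n := by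
        have h1 : 1 * (N₂ + 1) ≤ n₁ * (N₂ + 1) := Nat.mul_le_mul_right _ hn₁
        have h2 : 1 * (n₁ * (N₂ + 1)) ≤ n₀ * (n₁ * (N₂ + 1)) := Nat.mul_le_mul_right _ hn₀
        have h3 : N₂ ≤ n := by omega
        exact_mod_cast h3
      have hn0r : (0 : ℝ) < n := by exact_mod_cast hn
      obtain ⟨h₁, hh₁, hS⟩ := hS n hn (dvd_trans (dvd_mul_right _ _) hdvd)
      obtain ⟨h₂, hh₂, hR⟩ := hR n hn1n
      obtain ⟨h, hhE⟩ : ∃ h, h = min (min h₁ h₂) (min (min (x / 8) (min ϖ p₁))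
        (min (εN * ξ / 4) (min (ξ / 12) (1 / 2)))) := ⟨_, rfl⟩
      have hh0 : 0 < h := by
        rw [hhE]
        exact lt_min (lt_min hh₁ hh₂) (lt_min (lt_min (by positivity) (lt_min hϖ0 hp0))
          (lt_min (by positivity) (lt_min (by positivity) (by norm_num))))
      have hhh₁ : h ≤ h₁ := by rw [hhE]; exact (min_le_left _ _).trans (min_le_left _ _)
      have hhh₂ : h ≤ h₂ := by rw [hhE]; exact (min_le_left _ _).trans (min_le_right _ _)
      have hhx : h ≤ x / 8 := by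
        rw [hhE]; exact (min_le_right _ _).trans ((min_le_left _ _).trans (min_le_left _ _))
      have hhϖ : h ≤ ϖ := by
        rw [hhE]
        exact (min_le_right _ _).trans ((min_le_left _ _).trans ((min_le_right _ _).trans
          (min_le_left _ _)))
      have hhp : h ≤ p₁ := by
        rw [hhE]
        exact (min_le_right _ _).trans ((min_le_left _ _).trans ((min_le_right _ _).trans
          (min_le_right _ _)))
      have hhε : h ≤ εN * ξ / 4 := by
        rw [hhE]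
        exact (min_le_right _ _).trans ((min_le_right _ _).trans (min_le_left _ _))
      have hhξ : h ≤ ξ / 12 := by
        rw [hhE]
        exact (min_le_right _ _).trans ((min_le_right _ _).trans ((min_le_right _ _).trans
          (min_le_left _ _)))
      exact by
       have hh2 : h ≤ 1 / 2 := by
         rw [hhE]
         exact (min_le_right _ _).trans ((min_le_right _ _).trans ((min_le_right _ _).trans
           (min_le_right _ _)))
       refine ⟨h, hh0, hhx, ?_⟩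
       obtain ⟨J₁, hS⟩ := hS h hh0 hhh₁
       obtain ⟨J₂, hR⟩ := hR h hh0 hhh₂
       obtain ⟨J₃, hJ₃⟩ := ex_max [(n : ℝ), 1 / h, 2 * nn * M / κ, 2 * (M : ℝ), 16 / ξ,
         (C / ηt * (2 * (16 * ρ) / ξ + 1) + 2 * C / ξ) / (ε / 4)]
       refine ⟨max J₁ (max J₂ J₃), ?_⟩
       intro J hJ F B k hTim hOk hLvl t ht ht' hcap
       have hJ1 : J₁ ≤ J := (le_max_left _ _).trans hJ
       have hJ2 : J₂ ≤ J := (le_max_left _ _).trans ((le_max_right _ _).trans hJ)
       have hJ3 := hJ₃ J ((le_max_right _ _).trans ((le_max_right _ _).trans hJ))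
       have q1 : (n : ℝ) ≤ J := hJ3 _ (by simp)
       have q2 : 1 / h ≤ J := hJ3 _ (by simp)
       have q3 : 2 * nn * M / κ ≤ J := hJ3 _ (by simp)
       have q4 : 2 * (M : ℝ) ≤ J := hJ3 _ (by simp)
       have q5 : 16 / ξ ≤ J := hJ3 _ (by simp)
       have q6 : (C / ηt * (2 * (16 * ρ) / ξ + 1) + 2 * C / ξ) / (ε / 4) ≤ J := hJ3 _ (by simp)
       have hnJ : n ≤ J := by exact_mod_cast q1
       have hJr : (0 : ℝ) < J := lt_of_lt_of_le hn0r q1
       have hhJ : 1 ≤ h * J := by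
         rw [div_le_iff₀ hh0] at q2
         linarith only [q2]
       rw [div_le_iff₀ hξ0] at q5
       rw [div_le_iff₀ (by positivity)] at q6
       obtain ⟨X, hXd, hX1, hX2⟩ := pick_X hnn hκ hMr q3 hJr
       have hXξ : ξ * J ≤ X := by
         have e : κ / 2 * (1 / M * (J : ℝ)) = ξ * J := by rw [hξ]; ring
         rw [← e]
         exact hX1
       exact by
        have hX16 : (16 : ℝ) ≤ X := by linarith only [q5, hXξ]
        have hX0 : (0 : ℝ) < X := by linarith only [hxc, hcn, hcq, hh0, hhx, q5, hXξ]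
        have hXn : 16 ≤ X := by exact_mod_cast hX16
        have hJM : 0 < 1 / M * (J : ℝ) := by positivity
        have hXM : (X : ℝ) ≤ 1 / M * J := hX2.trans (by
          have := mul_le_mul_of_nonneg_right hκ1 hJM.le
          linarith only [this])
        have hXd' : (X : ℝ) ≤ d' * J := hXM.trans (mul_le_mul_of_nonneg_right hMd hJr.le)
        -- the velocity cell
        have hJM2 : 2 ≤ 1 / M * (J : ℝ) := by
          rw [one_div, ← div_eq_inv_mul, le_div_iff₀ hMr]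
          exact q4
        have hyy : (yb - yr) * J = C2 * (1 / M * J) := by
          rw [hybE]
          ring
        obtain ⟨qa, qb, hqa, hqb, hqq, hqab⟩ := pick_q (ya := yr) (yb := yb) (Jr := J)
          (qk := (B k).q) (X := X) hya (Nat.cast_nonneg _) hJr.le (by
            have h1 : (C2 : ℝ) * (1 / M * J) ≥ 4 * (1 / M * J) :=
              mul_le_mul_of_nonneg_right (by linarith only [hCq, hC2q, hγ']) hJM.le
            linarith only [hxc, hcn, hcq, hh0, hhx, q5, hXξ, hXM, hyy, h1])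
        have hQ : (Cq + 1 / γ) * (1 / M * J) ≤ (qb - qa : ℕ) := by
          rw [hyy] at hqq
          have h1 := mul_le_mul_of_nonneg_right hC2q hJM.le
          linarith only [hxc, hcn, hcq, hh0, hhx, q5, hXξ, hXM, hqq, h1]
        have hQ1 : Cq * (1 / M * J) ≤ (qb - qa : ℕ) := by
          have := mul_pos hγ' hJM
          linarith only [hQ, this]
        have hQ2 : (X : ℝ) ≤ γ * (qb - qa : ℕ) := by
          have h1 : 1 / γ * (1 / M * J) ≤ (qb - qa : ℕ) := by
            have := mul_pos hCq hJM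
            linarith only [hQ, this]
          have h2 := mul_le_mul_of_nonneg_left h1 hγ.le
          have e : γ * (1 / γ * (1 / M * (J : ℝ))) = 1 / M * J := by field_simp
          rw [e] at h2
          linarith only [hXM, h2]
        exact by
         have hqlt : qa < qb := by
           have h1 : (0 : ℝ) < (qb - qa : ℕ) := lt_of_lt_of_le (by positivity) hQ1
           have h2 : 0 < qb - qa := by exact_mod_cast h1
           omega
         -- the frames
         obtain ⟨a, ha⟩ := lvl_lev hLvl hOk hc.rm (cpx c x) hn hnJ hhJ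
         -- the times
         obtain ⟨T, hT1, hT2, hT3⟩ := tim_win hTim hϖ0 hhϖ hεN0 hη1 (X := X) (by omega) (by
           have h1 := mul_le_mul_of_nonneg_right hhε hJr.le
           have h2 := mul_le_mul_of_nonneg_left hXξ (show 0 ≤ εN / 4 by positivity)
           linarith only [h1, h2])
         have hTc : (T.card : ℝ) ≤ ρ * J := by
           refine hT2.trans (mul_le_mul_of_nonneg_right ?_ hJr.le)
           rw [div_le_iff₀ (by positivity)]
           linarith only [hη2]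
         obtain ⟨BS, hBS1, hBS2⟩ := hS J hJ1 F B k hOk hLvl a ha t ht' (fun i hi => hcap i hi) yr yb hya
           hyb.le hgrS X qa qb hXd hX1 hX2 hqa hqb hQ1 T hTc (by
             intro w hw R h1 h2 E hE
             have := hT3 w hw R (by omega) h2 E (hϖs.trans hE)
             exact this.trans (mul_le_mul_of_nonneg_right hεNs hX0.le))
         obtain ⟨BR, hBR1, hBR2⟩ := hR J hJ2 F B k hOk hLvl a ha yr yb hya hyb.le hgrR X qa qb hXξ
           (hXd'.trans (mul_le_mul_of_nonneg_right hd'2 hJr.le)) hqa hqb hQ2 T hTc (by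
             intro w hw R h1 h2 E hE
             have := hT3 w hw R (by omega) h2 E (hϖr.trans hE)
             exact this.trans (mul_le_mul_of_nonneg_right hεNr hX0.le))
         -- the steep intervals
         obtain ⟨Sb, hSb1, hSb2, hSb3⟩ := steep hLvl hc hn hnJ hh0 (by linarith only [hxc, hcn, hcq, hh0, hhx]) (t := t)
           (cap := cpx c x) (fun i hi => hcap i hi) (by unfold cpx; linarith only [hh0, hhx]) (x := X) (X := X) (by
             have h1 := mul_le_mul_of_nonneg_right hhξ hJr.le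
             linarith only [q5, hXξ, h1]) (by omega) (by
             have h1 : 2 * (J : ℝ) / X ≤ 2 / ξ := by
               rw [div_le_div_iff₀ hX0 hξ0]
               linarith only [hXξ]
             have h2 : (J : ℝ) / n + 1 ≤ 2 * (J / n) := by
               have : 1 ≤ (J : ℝ) / n := by rw [le_div_iff₀ hn0r]; linarith only [q1]
               linarith only [this]
             have h3 : (2 * (J : ℝ) / X + 1) * (J / n + 1) ≤ (2 / ξ + 1) * (2 * (J / n)) :=
               mul_le_mul (by linarith only [h1]) h2 (by positivity) (by positivity)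
             have h4 : 4 * (2 / ξ + 1) / ξ ≤ n := hN₂.trans hN2n
             rw [div_le_iff₀ hξ0] at h4
             have h5 : 2 * ((2 / ξ + 1) * (2 * ((J : ℝ) / n))) ≤ ξ * J := by
               have e : 2 * ((2 / ξ + 1) * (2 * ((J : ℝ) / n))) = 4 * (2 / ξ + 1) * J / n := by ring
               rw [e, div_le_iff₀ hn0r]
               have := mul_le_mul_of_nonneg_right h4 hJr.le
               linarith only [this]
             linarith only [hXξ, h3, h5]) hhp
         exact by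
          have hqk : (B k).q ≤ qa := by
            have h1 : ((B k).q : ℝ) ≤ qa := by
              have := mul_nonneg hya hJr.le
              linarith only [hqa, this]
            exact_mod_cast h1
          have hybJ : yb * J ≤ x / 2 * J := mul_le_mul_of_nonneg_right hyb.le hJr.le
          have hqkJ : ((B k).q : ℝ) ≤ (c.q + h) * J := by
            have := abs_le.1 hLvl.hq
            linarith only [this, this.2]
          refine ⟨X, qa, qb, X, a, BS ∪ BR, Sb, 16 * ρ, ηt, ε / 16 * X, ε / 8, p₁, ha, by omega, ?_, le_rfl,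
            ?_, hqk, ?_, hqlt, ?_, hηt0, by linarith only [hηt2, hxc, hcn, hcq, hh0, hhx], by positivity, by positivity, hp0.le, hp1, ?_, ?_,
            hSb1, hSb2, ?_, ?_, ?_⟩
          · -- `X ≤ ε J`
            refine hXd'.trans (mul_le_mul_of_nonneg_right ?_ hJr.le)
            have h1 : ε / 8 * ηt ≤ ε / 8 * 1 := mul_le_mul_of_nonneg_left (by linarith only [hηt2, hxc, hcn, hcq, hh0, hhx]) (by positivity)
            linarith only [hρ, hρ0, hd'3, h1]
          · calc (2 : ℝ) * 2 = 2 ^ 2 := by norm_num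
              _ ≤ 2 ^ X := pow_le_pow_right₀ (by norm_num) (by omega)
          · have h1 : x / 2 * J ≤ (x - 4 * h) * J := mul_le_mul_of_nonneg_right (by linarith only [hhx]) hJr.le
            linarith only [hxc, hcn, hcq, hh0, hhx, q5, hXξ, hqb, hybJ, h1]
          · have h1 : (c.q + h) * J + x / 2 * J ≤ 1 * J := by
              rw [← add_mul]
              exact mul_le_mul_of_nonneg_right (by linarith only [hxc, hcn, hh0, hhx]) hJr.le
            have h2 : ((0 + X + qb : ℕ) : ℝ) ≤ J := by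
              push_cast
              linarith only [hqb, hybJ, hqkJ, h1]
            exact_mod_cast h2
          · refine budget (ξ := ξ) hC hε (Real.log_pos (by norm_num)) ?_ hηt0 hηtε hp0.le hpε
              (by positivity) ?_ (by positivity) le_rfl hξ0 hXξ ?_ hJr (by linarith only [q6])
            · have := Real.log_two_lt_d9
              linarith only [hxc, hcn, hcq, hh0, hhx, this]
            · rw [hρ]
              have : 0 ≤ ε * ηt := by positivity
              linarith only [hρ, hρ0]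
            · have h1 := mul_le_mul_of_nonneg_right hd'3 hJr.le
              linarith only [hXd', h1]
          · have h1 : ((BS ∪ BR).card : ℝ) ≤ BS.card + BR.card := by
              exact_mod_cast Finset.card_union_le BS BR
            linarith only [hBS1, hBR1, h1]
          · intro w q _ h1 h2 h3 h4 h5
            rw [Finset.mem_union, not_or] at h3
            exact hBS2 w q h4 (by omega) h1 h2 h3.1 h5
          · intro w q _ h1 h2 h3 h5
            rw [Finset.mem_union, not_or] at h3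
            exact hBR2 w q (by omega) h1 h2 h3.2 h5
          · intro w _ h1 h2 h3
            rw [Nat.sub_zero] at h3
            exact hSb3 w (by omega) h2 h3

end Pool.PC
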