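import Mathlib

/-!
# Monotone functions are nearly affine on most cells of a fine mesh

`Aff r x d v e`: `r` is within `e` of the affine function of slope `v` on `[x, x + d]`.
-/

set_option autoImplicit false

namespace Pool.PC.Msh

open Finset MeasureTheory

/-- `r` is within `e` of an affine function of slope `v` on the cell `[x, x + d]`. -/
def Aff (r : ℝ → ℝ) (x d v e : ℝ) : Prop :=
  ∀ w, x ≤ w → w ≤ x + d → |r w - r x - v * (w - x)| ≤ e

/-- The set of points where `r` has the slope `v ≥ 0` up to `e` at the scales `< 1 / (n + 1)`. -/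
def Gd (r : ℝ → ℝ) (e : ℝ) (n : ℕ) : Set ℝ :=
  {x | ∃ v, 0 ≤ v ∧ ∀ y, |y - x| < 1 / (n + 1) → |r y - r x - v * (y - x)| ≤ e * |y - x|}

theorem Gd_mono (r : ℝ → ℝ) (e : ℝ) : Monotone (Gd r e) := by
  intro n m hnm x hx
  obtain ⟨v, hv, h⟩ := hx
  refine ⟨v, hv, fun y hy => h y (hy.trans_le ?_)⟩
  have : (n : ℝ) ≤ m := by exact_mod_cast hnm
  exact one_div_le_one_div_of_le (by positivity) (by linarith only [this])

theorem diff_mem {r : ℝ → ℝ} (hr : Monotone r) {e : ℝ} (he : 0 < e) {x : ℝ}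
    (hx : DifferentiableAt ℝ r x) : x ∈ ⋃ n, Gd r e n := by
  have hd := hx.hasDerivAt
  have h1 := (hasDerivAt_iff_isLittleO.1 hd).def he
  obtain ⟨δ, hδ, h2⟩ := Metric.eventually_nhds_iff.1 h1
  obtain ⟨n, hn⟩ := exists_nat_one_div_lt hδ
  refine Set.mem_iUnion.2 ⟨n, deriv r x, hr.deriv_nonneg, fun y hy => ?_⟩
  have h3 := h2 (y := y) (by rw [Real.dist_eq]; exact hy.trans hn)
  rw [Real.norm_eq_abs, Real.norm_eq_abs, smul_eq_mul] at h3
  rw [mul_comm (deriv r x)]
  exact h3

/-- Outside small measure the scale is uniform. -/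
theorem exists_Gd {r : ℝ → ℝ} (hr : Monotone r) {e ρ : ℝ} (he : 0 < e) (hρ : 0 < ρ) {a b : ℝ}
    (hab : a < b) : ∃ n, ENNReal.ofReal (b - a - ρ) < volume (Gd r e n ∩ Set.Icc a b) := by
  have h1 : volume ((⋃ n, Gd r e n)ᶜ) = 0 := by
    refine measure_mono_null ?_ (show volume {x | ¬ DifferentiableAt ℝ r x} = 0 from
      hr.ae_differentiableAt)
    intro x hx hd
    exact hx (diff_mem hr he hd)
  have h2 : volume (⋃ n, Gd r e n ∩ Set.Icc a b) = ENNReal.ofReal (b - a) := by
    rw [← Set.iUnion_inter, ← Real.volume_Icc]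
    refine le_antisymm (measure_mono Set.inter_subset_right) ?_
    calc volume (Set.Icc a b) ≤ volume (((⋃ n, Gd r e n) ∩ Set.Icc a b) ∪ (⋃ n, Gd r e n)ᶜ) := by
          refine measure_mono fun x hx => ?_
          by_cases h : x ∈ ⋃ n, Gd r e n
          · exact Or.inl ⟨h, hx⟩
          · exact Or.inr h
      _ ≤ volume ((⋃ n, Gd r e n) ∩ Set.Icc a b) + volume ((⋃ n, Gd r e n)ᶜ) :=
          measure_union_le _ _
      _ = volume ((⋃ n, Gd r e n) ∩ Set.Icc a b) := by rw [h1, add_zero]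
  have hm : Monotone fun n => Gd r e n ∩ Set.Icc a b := fun n m h =>
    Set.inter_subset_inter_left _ (Gd_mono r e h)
  rw [hm.measure_iUnion] at h2
  have h3 : ENNReal.ofReal (b - a - ρ) < ⨆ n, volume (Gd r e n ∩ Set.Icc a b) := by
    rw [h2]
    exact (ENNReal.ofReal_lt_ofReal_iff (by linarith only [hab])).2 (by linarith only [hρ])
  exact lt_iSup_iff.1 h3

/-- A cell which meets the good set is nearly affine. -/
theorem aff_of_meet {r : ℝ → ℝ} {e : ℝ} {n : ℕ} {x d y₀ : ℝ} (hd : d < 1 / (n + 1))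
    (hy : y₀ ∈ Gd r e n) (h1 : x ≤ y₀) (h2 : y₀ ≤ x + d) (he : 0 ≤ e) :
    ∃ v, 0 ≤ v ∧ Aff r x d v (2 * e * d) := by
  obtain ⟨v, hv, h⟩ := hy
  refine ⟨v, hv, fun w hw1 hw2 => ?_⟩
  have k1 : |w - y₀| ≤ d := by
    rw [abs_le]; constructor <;> linarith
  have k2 : |x - y₀| ≤ d := by
    rw [abs_le]; constructor <;> linarith
  have a1 := h w (k1.trans_lt hd)
  have a2 := h x (k2.trans_lt hd)
  have b1 : e * |w - y₀| ≤ e * d := mul_le_mul_of_nonneg_left k1 he
  have b2 : e * |x - y₀| ≤ e * d := mul_le_mul_of_nonneg_left k2 he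
  have c1 := abs_le.1 (a1.trans b1)
  have c2 := abs_le.1 (a2.trans b2)
  rw [abs_le]
  constructor <;> nlinarith only [c1, c2, c1.1, c1.2, c2.1, c2.2]

/-- **The mesh lemma.** For a monotone function on `[a, b]` the cells of a fine mesh which are not
nearly affine have small total length. -/
theorem mesh {r : ℝ → ℝ} (hr : Monotone r) {a b e ρ : ℝ} (hab : a < b) (he : 0 < e)
    (hρ : 0 < ρ) : ∃ d₀ : ℝ, 0 < d₀ ∧ ∀ d : ℝ, 0 < d → d < d₀ → ∀ (x₀ : ℝ) (n : ℕ), a ≤ x₀ →
      x₀ + n * d ≤ b → ∀ B : Finset ℕ, B ⊆ range n →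
      (∀ i ∈ B, ∀ v, 0 ≤ v → ¬ Aff r (x₀ + i * d) d v (e * d)) → (B.card : ℝ) * d ≤ ρ := by
  classical
  obtain ⟨N, hN⟩ := exists_Gd hr (e := e / 2) (by positivity) hρ hab
  refine ⟨1 / (N + 1), by positivity, ?_⟩
  intro d hd hdN x₀ n hx₀ hxn B hB hbad
  -- the bad cells
  have hdis : Gd r (e / 2) N ∩ Set.Icc a b ⊆
      Set.Icc a b \ ⋃ i ∈ B, Set.Ioc (x₀ + i * d) (x₀ + i * d + d) := by
    rintro y ⟨hy, hyab⟩
    refine ⟨hyab, fun hyU => ?_⟩
    simp only [Set.mem_iUnion] at hyU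
    obtain ⟨i, hi, hyi⟩ := hyU
    obtain ⟨v, hv, hA⟩ := aff_of_meet (x := x₀ + i * d) (d := d) hdN hy hyi.1.le hyi.2
      (by positivity)
    refine hbad i hi v hv ?_
    have e1 : 2 * (e / 2) * d = e * d := by ring
    rwa [e1] at hA
  have hsub : (⋃ i ∈ B, Set.Ioc (x₀ + i * d) (x₀ + i * d + d)) ⊆ Set.Icc a b := by
    intro y hy
    simp only [Set.mem_iUnion] at hy
    obtain ⟨i, hi, hyi⟩ := hy
    have h1 : i < n := mem_range.1 (hB hi)
    have h2 : ((i : ℝ) + 1) ≤ n := by exact_mod_cast h1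
    have h3 : (i : ℝ) * d + d ≤ n * d := by nlinarith only [hd, h2]
    have h4 : (0 : ℝ) ≤ i * d := by positivity
    exact ⟨by linarith only [hx₀, h4, hyi, hyi.1], by linarith [hyi.2]⟩
  have hmeas : volume (⋃ i ∈ B, Set.Ioc (x₀ + i * d) (x₀ + i * d + d)) =
      ENNReal.ofReal (B.card * d) := by
    rw [measure_biUnion_finset]
    · have : ∀ i ∈ B, volume (Set.Ioc (x₀ + (i : ℝ) * d) (x₀ + i * d + d)) = ENNReal.ofReal d := by
        intro i _
        rw [Real.volume_Ioc]
        congr 1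
        ring
      rw [Finset.sum_congr rfl this, Finset.sum_const, nsmul_eq_mul,
        ENNReal.ofReal_mul (Nat.cast_nonneg _), ENNReal.ofReal_natCast]
    · intro i _ j _ hij
      refine Set.disjoint_left.2 fun y hyi hyj => hij ?_
      have h1 := hyi.1
      have h2 := hyi.2
      have h3 := hyj.1
      have h4 := hyj.2
      by_contra hne
      rcases Nat.lt_or_gt_of_ne hne with h | h
      · have h5 : ((i : ℝ) + 1) ≤ j := by exact_mod_cast h
        nlinarith only [h2, h3, hd, h5]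
      · have h5 : ((j : ℝ) + 1) ≤ i := by exact_mod_cast h
        nlinarith only [h1, h4, hd, h5]
    · intro i _
      exact measurableSet_Ioc
  have hUm : MeasurableSet (⋃ i ∈ B, Set.Ioc (x₀ + (i : ℝ) * d) (x₀ + i * d + d)) :=
    Finset.measurableSet_biUnion _ fun i _ => measurableSet_Ioc
  have h1 : volume (Gd r (e / 2) N ∩ Set.Icc a b) ≤
      ENNReal.ofReal (b - a) - ENNReal.ofReal (B.card * d) := by
    refine (measure_mono hdis).trans ?_
    rw [measure_sdiff hsub hUm.nullMeasurableSet (by rw [hmeas]; exact ENNReal.ofReal_ne_top),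
      hmeas, Real.volume_Icc]
  rw [← ENNReal.ofReal_sub _ (by positivity)] at h1
  have h2 := hN.trans_le h1
  by_contra hcon
  have h3 := not_le.1 hcon
  exact absurd h2 (not_lt.2 (ENNReal.ofReal_le_ofReal (by linarith)))

/-- **The mesh lemma with bounded slopes.** -/
theorem mesh_bdd {r : ℝ → ℝ} (hr : Monotone r) {a b e ρ V : ℝ} (hab : a < b) (he : 0 < e)
    (hρ : 0 < ρ) (hV : r b - r a ≤ V) : ∃ d₀ : ℝ, 0 < d₀ ∧ ∀ d : ℝ, 0 < d → d < d₀ →
      ∀ (x₀ : ℝ) (n : ℕ), a ≤ x₀ → x₀ + n * d ≤ b → ∀ B : Finset ℕ, B ⊆ range n →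
      (∀ i ∈ B, ∀ v, 0 ≤ v → v ≤ e + 2 * V / ρ → ¬ Aff r (x₀ + i * d) d v (e * d)) →
      (B.card : ℝ) * d ≤ ρ := by
  classical
  have hV0 : 0 ≤ V := (sub_nonneg.2 (hr hab.le)).trans hV
  obtain ⟨d₀, hd₀, h⟩ := mesh hr hab he (half_pos hρ)
  refine ⟨d₀, hd₀, ?_⟩
  intro d hd hdd x₀ n hx₀ hxn B hB hbad
  obtain ⟨P, hP⟩ : ∃ P : ℕ → Prop, P = fun i : ℕ => ∃ v, 0 ≤ v ∧ Aff r (x₀ + i * d) d v (e * d) :=
    ⟨_, rfl⟩
  have h1 := h d hd hdd x₀ n hx₀ hxn (B.filter fun i => ¬ P i)
    ((filter_subset _ _).trans hB) (by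
      intro i hi v hv hA
      refine (mem_filter.1 hi).2 ?_
      rw [hP]
      exact ⟨v, hv, hA⟩)
  -- the steep cells
  have hst : ∀ i ∈ B.filter fun i => P i,
      2 * V / ρ * d ≤ r (x₀ + (i + 1 : ℕ) * d) - r (x₀ + i * d) := by
    intro i hi
    obtain ⟨hiB, hiP⟩ := mem_filter.1 hi
    rw [hP] at hiP
    obtain ⟨v, hv, hA⟩ := hiP
    have hv1 : e + 2 * V / ρ < v := by
      by_contra hcon
      exact hbad i hiB v hv (not_lt.1 hcon) hA
    have h2 := hA (x₀ + i * d + d) (by linarith only [hd]) le_rfl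
    have e1 : x₀ + ((i + 1 : ℕ) : ℝ) * d = x₀ + i * d + d := by push_cast; ring
    rw [e1]
    have e2 : v * (x₀ + i * d + d - (x₀ + i * d)) = v * d := by ring
    rw [e2] at h2
    have h3 := (abs_le.1 h2).1
    nlinarith only [h3, hd, hv1]
  have htel : ∑ i ∈ B.filter (fun i => P i), (r (x₀ + (i + 1 : ℕ) * d) - r (x₀ + i * d)) ≤ V := by
    have h2 : ∑ i ∈ B.filter (fun i => P i), (r (x₀ + (i + 1 : ℕ) * d) - r (x₀ + i * d)) ≤
        ∑ i ∈ range n, (r (x₀ + (i + 1 : ℕ) * d) - r (x₀ + i * d)) := by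
      refine Finset.sum_le_sum_of_subset_of_nonneg ((filter_subset _ _).trans hB)
        fun i _ _ => sub_nonneg.2 (hr ?_)
      push_cast
      nlinarith only [hd]
    rw [Finset.sum_range_sub (fun i : ℕ => r (x₀ + i * d))] at h2
    refine h2.trans (le_trans ?_ hV)
    have h3 : r (x₀ + n * d) ≤ r b := hr hxn
    have h4 : r a ≤ r (x₀ + (0 : ℕ) * d) := hr (by push_cast; linarith)
    linarith
  have h2 := (Finset.card_nsmul_le_sum _ _ _ hst).trans htel
  rw [nsmul_eq_mul] at h2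
  have hcard : (B.card : ℝ) = (B.filter fun i => ¬ P i).card + (B.filter fun i => P i).card := by
    have := Finset.card_filter_add_card_filter_not (s := B) (p := fun i => P i)
    have h3 : (B.filter fun i => P i).card + (B.filter fun i => ¬ P i).card = B.card := this
    rw [← h3]
    push_cast
    ring
  have h4 : ((B.filter fun i => P i).card : ℝ) * d ≤ ρ / 2 := by
    rcases hV0.eq_or_lt with h0 | h0
    · -- no variation: there are no steep cells
      have h5 : B.filter (fun i => P i) = ∅ := by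
        refine Finset.eq_empty_of_forall_notMem fun i hi => ?_
        obtain ⟨hiB, hiP⟩ := mem_filter.1 hi
        rw [hP] at hiP
        obtain ⟨v, hv, hA⟩ := hiP
        have hv1 : e + 2 * V / ρ < v := by
          by_contra hcon
          exact hbad i hiB v hv (not_lt.1 hcon) hA
        have h2 := hA (x₀ + i * d + d) (by linarith only [hd]) le_rfl
        have e2 : v * (x₀ + i * d + d - (x₀ + i * d)) = v * d := by ring
        rw [e2] at h2
        have h3 := (abs_le.1 h2).1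
        have h6 : i < n := mem_range.1 (hB hiB)
        have h7 : ((i : ℝ) + 1) ≤ n := by exact_mod_cast h6
        have h8 : r (x₀ + i * d + d) ≤ r b := hr (by nlinarith only [hxn, hd, h7])
        have h9 : r a ≤ r (x₀ + i * d) := hr (by
          have : (0 : ℝ) ≤ i * d := by positivity
          linarith only [hx₀, this])
        rw [← h0] at hv1
        have h10 : e * d < v * d := by
          have : e < v := by simpa using hv1
          exact mul_lt_mul_of_pos_right this hd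
        linarith only [hV, h0, h3, h8, h9, h10]
      rw [h5]
      simp
      linarith only [hρ]
    · have h5 : ((B.filter fun i => P i).card : ℝ) * d * (2 * V / ρ) ≤ V := by
        have : ((B.filter fun i => P i).card : ℝ) * d * (2 * V / ρ) =
          (B.filter fun i => P i).card * (2 * V / ρ * d) := by ring
        rw [this]
        exact h2
      have h6 : (0 : ℝ) < 2 * V / ρ := by positivity
      rw [← le_div_iff₀ h6] at h5
      refine h5.trans (le_of_eq ?_)
      field_simp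
  rw [hcard]
  linarith only [h1, h4]

end Pool.PC.Msh
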