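import Pool.Agent.H92.PC.Line

/-!
# Plan C: the part ALPHA of the telescope

`theta_line`: one velocity scale, one progression of windows. `theta_alpha`: the choice of the
velocity scale `q` and of the residue of the windows.
-/

set_option autoImplicit false

namespace Pool.PC

open Finset Real
open Pool.Agent.H49.Ent Pool.Agent.H32.Dense Pool.STK Pool.KA Pool.KSAT Pool.K2S

/-- **The telescope on one progression of windows.** -/
theorem theta_line {C₀ : ℝ} (hC₀ : 0 ≤ C₀) : ∃ C : ℝ, 0 ≤ C ∧ ∀ {J : ℕ} (F : Fam 2 J)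
    (i0 : Fin 2) (q X M w₁ : ℕ) (l : ℕ → ℕ) (z : ℕ → F.Ω → Fin 2 → ℝ)
    (_ : Lin F i0 q X M w₁ l z C₀) (f : ℕ → ℝ) (η er e₀ p₁ : ℝ) (x n : ℕ), (∀ j, 0 ≤ f j) →
    0 < η → η < 1 → 0 ≤ er → 0 ≤ e₀ → 0 ≤ p₁ → p₁ ≤ 1 → 0 < X → x ≤ X → n ≤ M →
    (∀ j, j < n → q + (w₁ + j * X) + l j ≤ J) →
    (∀ j, j < n → f j < 1 →
      vl J q w₁ X l (j + 1) - vl J q w₁ X l j - e₀ * X ≤
        ni F i0 q w₁ X l z (j + 1) - ni F i0 q w₁ X l z j) →
    (∀ j, j < M → f j < 1 → X * Real.log 2 - er ≤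
      rowe F q X i0 (w₁ + j * X) (ctx F q i0 (w₁ + j * X) (l j) (z j))) →
    (∀ a b, a < n → a < b → b ≤ M → l a + x + X ≤ l b → Pe (dbl F.p (slam F (w₁ + a * X))) (fun u => ∀ k, k ≠ i0 →
      |z b u.1 k - z b u.2 k| ≤ 1 / 2 ^ (l a + x)) ≤ p₁) →
    ∃ b, n ≤ b ∧ b ≤ M ∧
      vl J q w₁ X l b - vl J q w₁ X l 0 - (e₀ * X * b +
        (7 * Real.log 2 * X + C) / η * ∑ j ∈ Finset.range b, f j +
        ((η + 2 * p₁) * Real.log 2 + (er + C) / X) * ((l b : ℝ) - l 0)) ≤
      ni F i0 q w₁ X l z b - ni F i0 q w₁ X l z 0 := by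
  obtain ⟨C, hC, hj⟩ := Lin.jump hC₀
  refine ⟨C, hC, ?_⟩
  intro J F i0 q X M w₁ l z hL f η er e₀ p₁ x n hf hη hη1 her he₀ hp₁ hp₁1 hX hx hnM hPJ hS hR hTH
  have hu0 : 0 < Real.log 2 := Real.log_pos (by norm_num)
  have hXr : (0 : ℝ) < X := by exact_mod_cast hX
  obtain ⟨b, h1, h2, h3, h4⟩ := Tel.tele (f := f) (η := η) (M := M)
    (N := ni F i0 q w₁ X l z) (V := vl J q w₁ X l) (L := fun j => (l j : ℝ)) (n := n)
    (u := X) (c₁ := 0) (c₂ := 7 * Real.log 2)
    (c₃ := (η + 2 * p₁) * Real.log 2 + (er + C) / X) (e₀ := e₀) (e₁ := C) hnM hf hη le_rfl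
    (by positivity) (by positivity) hXr.le he₀ hC
    (fun i j hij _ => by
      have := hL.lm i j hij
      show (l i : ℝ) ≤ l j
      exact_mod_cast this)
    (by
      intro i hi hg
      have h1 := hS i hi ((hg.le (by omega)).trans_lt hη1)
      linarith)
    (by
      intro a b han hab hbM hg
      have h1 := hj F i0 q X M w₁ l z hL f η er p₁ x a b hf hη.le hη1.le her hp₁ hp₁1 hX hx hab
        hbM (hPJ a han) hg (fun j _ h2 h3 => hR j h2 h3) (hTH a b han hab hbM)
      have e : 7 * Real.log 2 * (b - a : ℕ) * (X : ℝ) =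
        7 * Real.log 2 * ((b - a : ℕ) * X) := by ring
      show vl J q w₁ X l b - vl J q w₁ X l a - 7 * Real.log 2 * (b - a : ℕ) * (X : ℝ) -
        ((η + 2 * p₁) * Real.log 2 + (er + C) / X) * ((l b : ℝ) - l a) - C ≤
        ni F i0 q w₁ X l z b - ni F i0 q w₁ X l z a
      linarith) 0 (Nat.zero_le _)
  refine ⟨b, h2, h3, ?_⟩
  have e1 : Finset.Ico 0 b = Finset.range b := by
    ext i
    simp
  rw [e1] at h4
  have e2 : ((0 : ℝ) * η + e₀) * X * (b - 0 : ℕ) = e₀ * X * b := by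
    rw [Nat.sub_zero]
    ring
  rw [e2] at h4
  exact h4

/-- One step, rows only. -/
theorem Lin.row_step {C₀ : ℝ} (hC₀ : 0 ≤ C₀) {J : ℕ} {F : Fam 2 J} {i0 : Fin 2} {q X M w₁ : ℕ}
    {l : ℕ → ℕ} {z : ℕ → F.Ω → Fin 2 → ℝ} (hL : Lin F i0 q X M w₁ l z C₀) {j : ℕ} (hj : j < M) :
    ni F i0 q w₁ X l z j + rowe F q X i0 (w₁ + j * X) (ctx F q i0 (w₁ + j * X) (l j) (z j)) ≤
      ni F i0 q w₁ X l z (j + 1) + cnst 2 C₀ := by
  have hp0 := F.isLaw.nonneg
  have e : w₁ + (j + 1) * X = w₁ + j * X + X := by ring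
  obtain ⟨G, hG⟩ : ∃ G, G = ctx F q i0 (w₁ + (j + 1) * X) (l (j + 1)) (z (j + 1)) := ⟨_, rfl⟩
  have h1 := nfo_step F (w := w₁ + j * X) (v := w₁ + (j + 1) * X)
    (ctx F q i0 (w₁ + j * X) (l j) (z j)) G
    (ctx_det (hL.det j hj.le)) (fun _ _ _ _ e => ctx_Z e) (fun _ _ _ _ e => by
      rw [hG] at e
      exact ctx_T1 e)
  have h2 : CH F.p (ctx F q i0 (w₁ + j * X) (l j) (z j)) G ≤ cnst 2 C₀ := by
    rw [hG]
    exact hL.nest hC₀ (Nat.le_succ j) hj
  have h3 : rowe F q X i0 (w₁ + j * X) (ctx F q i0 (w₁ + j * X) (l j) (z j)) ≤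
      CH F.p G (fun ω => (F.T1 (w₁ + (j + 1) * X) ω,
        ctx F q i0 (w₁ + j * X) (l j) (z j) ω)) := by
    unfold rowe
    rw [e]
    refine CH_mono_left hp0 fun ω ω' _ _ h => ?_
    have h4 : G ω = G ω' := (Prod.ext_iff.mp h).1
    rw [hG] at h4
    have h5 := ctx_bps h4
    rwa [e] at h5
  have h4 : ni F i0 q w₁ X l z (j + 1) = nfo F (w₁ + (j + 1) * X) G := by
    unfold ni
    rw [hG]
  have h5 : ni F i0 q w₁ X l z j =
    nfo F (w₁ + j * X) (ctx F q i0 (w₁ + j * X) (l j) (z j)) := rfl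
  rw [h4, h5]
  linarith

/-- **The telescope on one progression of windows, to the index `nx`.** -/
theorem theta_line2 {C₀ : ℝ} (hC₀ : 0 ≤ C₀) : ∃ C : ℝ, 0 ≤ C ∧ ∀ {J : ℕ} (F : Fam 2 J)
    (i0 : Fin 2) (q X M w₁ : ℕ) (l : ℕ → ℕ) (z : ℕ → F.Ω → Fin 2 → ℝ)
    (_ : Lin F i0 q X M w₁ l z C₀) (f : ℕ → ℝ) (η er e₀ p₁ : ℝ) (x nx : ℕ), (∀ j, 0 ≤ f j) →
    0 < η → η < 1 → 0 ≤ er → 0 ≤ e₀ → 0 ≤ p₁ → p₁ ≤ 1 → 0 < X → x ≤ X → nx ≤ M →
    (∀ j, j < nx → f j < 1 → q + (w₁ + (j + 1) * X) + l (j + 1) ≤ J →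
      vl J q w₁ X l (j + 1) - vl J q w₁ X l j - e₀ * X ≤
        ni F i0 q w₁ X l z (j + 1) - ni F i0 q w₁ X l z j) →
    (∀ j, j < M → f j < 1 → X * Real.log 2 - er ≤
      rowe F q X i0 (w₁ + j * X) (ctx F q i0 (w₁ + j * X) (l j) (z j))) →
    (∀ a b, a < nx → a < b → b ≤ M → l a + x + X ≤ l b →
      Pe (dbl F.p (slam F (w₁ + a * X))) (fun u => ∀ k, k ≠ i0 →
        |z b u.1 k - z b u.2 k| ≤ 1 / 2 ^ (l a + x)) ≤ p₁) →
    ∃ b, nx ≤ b ∧ b ≤ M ∧
      vl J q w₁ X l b - vl J q w₁ X l 0 - ((e₀ + (er + C) / X) * (X * b) +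
        (7 * Real.log 2 * X + C) / η * (∑ j ∈ Finset.range b, f j + 1) +
        ((η + 2 * p₁) * Real.log 2 + (er + C) / X) * ((l b : ℝ) - l 0)) ≤
      ni F i0 q w₁ X l z b - ni F i0 q w₁ X l z 0 := by
  classical
  obtain ⟨C, hC, key⟩ := theta_line hC₀
  have hc := cnst_nonneg 2 hC₀
  refine ⟨C + cnst 2 C₀, by linarith, ?_⟩
  intro J F i0 q X M w₁ l z hL f η er e₀ p₁ x nx hf hη hη1 her he₀ hp₁ hp₁1 hX hx hnM hS hR hTH
  have hu0 : 0 < Real.log 2 := Real.log_pos (by norm_num)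
  have hXr : (0 : ℝ) < X := by exact_mod_cast hX
  -- the first index which is `nx` or truncated
  obtain ⟨n, ⟨hn0, hn1⟩, hn2⟩ : ∃ n, (n ≤ nx ∧ (n = nx ∨ J < q + (w₁ + n * X) + l n)) ∧
      ∀ j, j < n → q + (w₁ + j * X) + l j ≤ J := by
    have hex : ∃ j, j = nx ∨ J < q + (w₁ + j * X) + l j := ⟨nx, Or.inl rfl⟩
    refine ⟨Nat.find hex, ⟨Nat.find_min' hex (Or.inl rfl), Nat.find_spec hex⟩, ?_⟩
    intro j hj
    have h1 := Nat.find_min hex hj
    push Not at h1
    exact h1.2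
  obtain ⟨g, hg⟩ : ∃ g : ℕ → ℝ, g = fun j => f j + (if j + 1 = n then (1 : ℝ) else 0) := ⟨_, rfl⟩
  have hg0 : ∀ j, 0 ≤ g j := by
    intro j
    rw [hg]
    show (0 : ℝ) ≤ f j + (if j + 1 = n then (1 : ℝ) else 0)
    have := hf j
    split_ifs <;> linarith
  have hgl : ∀ j, g j < 1 → f j < 1 ∧ j + 1 ≠ n := by
    intro j hj
    rw [hg] at hj
    simp only at hj
    have h1 := hf j
    constructor
    · split_ifs at hj <;> linarith
    · intro h
      rw [if_pos h] at hj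
      linarith
  have hgs : ∀ b, ∑ j ∈ Finset.range b, g j ≤ ∑ j ∈ Finset.range b, f j + 1 := by
    intro b
    rw [hg, Finset.sum_add_distrib]
    refine add_le_add le_rfl ?_
    rw [← Finset.sum_filter, Finset.sum_const, nsmul_eq_mul, mul_one]
    have : ((Finset.range b).filter fun j => j + 1 = n).card ≤ 1 := by
      rw [Finset.card_le_one]
      intro i hi j hj
      rw [Finset.mem_filter] at hi hj
      omega
    exact_mod_cast this
  obtain ⟨b, hb1, hb2, hb3⟩ := key F i0 q X M w₁ l z hL g η er e₀ p₁ x n hg0 hη hη1 her he₀ hp₁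
    hp₁1 hX hx (by omega) hn2
    (by
      intro j hj hgj
      obtain ⟨h1, h2⟩ := hgl j hgj
      exact hS j (by omega) h1 (hn2 (j + 1) (by omega)))
    (fun j hj hgj => hR j hj (hgl j hgj).1)
    (fun a b ha hab hbM hll => hTH a b (by omega) hab hbM hll)
  -- the common bounds
  obtain ⟨A, hA⟩ : ∃ A, A = (7 * Real.log 2 * X + (C + cnst 2 C₀)) / η := ⟨_, rfl⟩
  have hA0 : 0 ≤ A := by rw [hA]; positivity
  have hAX : X * Real.log 2 ≤ A := by
    rw [hA, le_div_iff₀ hη]
    have h1 : X * Real.log 2 * η ≤ X * Real.log 2 * 1 :=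
      mul_le_mul_of_nonneg_left hη1.le (by positivity)
    have h2 : 0 ≤ X * Real.log 2 := by positivity
    linarith
  have hAC : (7 * Real.log 2 * X + C) / η ≤ A := by
    rw [hA]
    exact div_le_div_of_nonneg_right (by linarith) hη.le
  obtain ⟨B, hB⟩ : ∃ B, B = (η + 2 * p₁) * Real.log 2 + (er + (C + cnst 2 C₀)) / X := ⟨_, rfl⟩
  have hB0 : 0 ≤ B := by rw [hB]; positivity
  have hBC : (η + 2 * p₁) * Real.log 2 + (er + C) / X ≤ B := by
    rw [hB]
    have : (er + C) / X ≤ (er + (C + cnst 2 C₀)) / X :=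
      div_le_div_of_nonneg_right (by linarith) hXr.le
    linarith
  have hlb : ∀ i j, i ≤ j → (0 : ℝ) ≤ (l j : ℝ) - l i := by
    intro i j hij
    have : (l i : ℝ) ≤ l j := by exact_mod_cast hL.lm i j hij
    linarith
  have hsum0 : ∀ b, 0 ≤ ∑ j ∈ Finset.range b, f j := fun b => Finset.sum_nonneg fun j _ => hf j
  have hmain : vl J q w₁ X l b - vl J q w₁ X l 0 - ((e₀ + (er + (C + cnst 2 C₀)) / X) * (X * b) +
      A * (∑ j ∈ Finset.range b, f j + 1) + B * ((l b : ℝ) - l 0)) ≤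
      ni F i0 q w₁ X l z b - ni F i0 q w₁ X l z 0 := by
    have k1 : (7 * Real.log 2 * X + C) / η * ∑ j ∈ Finset.range b, g j ≤
        A * (∑ j ∈ Finset.range b, f j + 1) := by
      have h1 : 0 ≤ ∑ j ∈ Finset.range b, g j := Finset.sum_nonneg fun j _ => hg0 j
      exact (mul_le_mul_of_nonneg_right hAC h1).trans (mul_le_mul_of_nonneg_left (hgs b) hA0)
    have k2 := mul_le_mul_of_nonneg_right hBC (hlb 0 b (Nat.zero_le _))
    have k3 : e₀ * X * b ≤ (e₀ + (er + (C + cnst 2 C₀)) / X) * (X * b) := by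
      have : 0 ≤ (er + (C + cnst 2 C₀)) / X * (X * b) := by positivity
      have e : (e₀ + (er + (C + cnst 2 C₀)) / X) * (X * b) = e₀ * X * b +
        (er + (C + cnst 2 C₀)) / X * (X * b) := by ring
      linarith
    linarith
  rw [← hA, ← hB]
  by_cases hbx : nx ≤ b
  · exact ⟨b, hbx, hb2, hmain⟩
  · -- the truncated part, rows only
    have hbx := not_le.1 hbx
    have htr : J < q + (w₁ + b * X) + l b := by
      have h1 : n * X ≤ b * X := Nat.mul_le_mul_right X hb1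
      have h2 := hL.lm n b hb1
      rcases hn1 with h | h
      · omega
      · omega
    refine ⟨nx, le_rfl, hnM, ?_⟩
    have step : ∀ d, b + d ≤ nx →
        vl J q w₁ X l (b + d) - vl J q w₁ X l b - ((er + cnst 2 C₀) * d +
          X * Real.log 2 * ∑ j ∈ Finset.range d, f (b + j)) ≤
        ni F i0 q w₁ X l z (b + d) - ni F i0 q w₁ X l z b := by
      intro d
      induction d with
      | zero => intro _; simp
      | succ d ih =>
        intro hd
        have ih' := ih (by omega)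
        have h1 := hL.row_step hC₀ (j := b + d) (by omega)
        have hv : vl J q w₁ X l (b + d + 1) = vl J q w₁ X l (b + d) + X * Real.log 2 := by
          unfold vl vol
          have h3 : b * X ≤ (b + d) * X := Nat.mul_le_mul_right X (by omega)
          have h4 : (b + d) * X ≤ (b + d + 1) * X := Nat.mul_le_mul_right X (by omega)
          have h5 := hL.lm b (b + d) (by omega)
          have h6 := hL.lm (b + d) (b + d + 1) (by omega)
          rw [min_eq_right (by omega : J ≤ q + (w₁ + (b + d + 1) * X) + l (b + d + 1)),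
            min_eq_right (by omega : J ≤ q + (w₁ + (b + d) * X) + l (b + d))]
          push_cast
          ring
        have hrow : X * Real.log 2 - er - X * Real.log 2 * f (b + d) ≤
            rowe F q X i0 (w₁ + (b + d) * X)
              (ctx F q i0 (w₁ + (b + d) * X) (l (b + d)) (z (b + d))) := by
          have hXu : 0 ≤ X * Real.log 2 := by positivity
          by_cases hfj : f (b + d) < 1
          · have h2 := hR (b + d) (by omega) hfj
            have h3 := mul_nonneg hXu (hf (b + d))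
            linarith
          · have h2 := mul_le_mul_of_nonneg_left (not_lt.1 hfj) hXu
            have h3 : 0 ≤ rowe F q X i0 (w₁ + (b + d) * X)
              (ctx F q i0 (w₁ + (b + d) * X) (l (b + d)) (z (b + d))) :=
              CH_nonneg F.isLaw.nonneg _ _
            linarith
        rw [Finset.sum_range_succ]
        have e : b + (d + 1) = b + d + 1 := by ring
        rw [e, hv]
        push_cast
        linarith
    obtain ⟨d, hd⟩ : ∃ d, nx = b + d := Nat.exists_eq_add_of_le hbx.le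
    have h1 := step d hd.ge
    rw [← hd] at h1
    have hsum : ∑ j ∈ Finset.range nx, f j = ∑ j ∈ Finset.range b, f j +
        ∑ j ∈ Finset.range d, f (b + j) := by
      rw [hd, Finset.sum_range_add]
    have hd0 : 0 ≤ ∑ j ∈ Finset.range d, f (b + j) := Finset.sum_nonneg fun j _ => hf _
    have k1 : X * Real.log 2 * ∑ j ∈ Finset.range d, f (b + j) ≤
        A * ∑ j ∈ Finset.range d, f (b + j) := mul_le_mul_of_nonneg_right hAX hd0
    have k2 : B * ((l b : ℝ) - l 0) ≤ B * ((l nx : ℝ) - l 0) := by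
      have := hlb b nx hbx.le
      exact mul_le_mul_of_nonneg_left (by linarith) hB0
    have k3 : (er + cnst 2 C₀) * d ≤ (e₀ + (er + (C + cnst 2 C₀)) / X) * (X * d) := by
      have e : (e₀ + (er + (C + cnst 2 C₀)) / X) * (X * d) = e₀ * (X * d) +
        (er + (C + cnst 2 C₀)) * d := by
        field_simp
      rw [e]
      have h2 : 0 ≤ e₀ * ((X : ℝ) * d) := by positivity
      have h3 : 0 ≤ C * (d : ℝ) := by positivity
      linarith
    have e1 : (nx : ℝ) = b + d := by rw [hd]; push_cast; ring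
    rw [hsum, e1]
    have e2 : (e₀ + (er + (C + cnst 2 C₀)) / X) * (X * ((b : ℝ) + d)) =
      (e₀ + (er + (C + cnst 2 C₀)) / X) * (X * b) + (e₀ + (er + (C + cnst 2 C₀)) / X) * (X * d) := by
      ring
    rw [e2]
    linarith

/-- **The choice of the velocity scale and of the residue.** -/
theorem choose_qs (B : Finset (ℕ × ℕ)) (S : Finset ℕ) (W₀ X qa qb N : ℕ) {β : ℝ} (hX : 0 < X)
    (hq : qa < qb) (hS : S ⊆ Finset.range X) (hS2 : 2 * S.card ≤ X)
    (hB : (B.card : ℝ) ≤ β * (qb - qa : ℕ)) :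
    ∃ q s, qa ≤ q ∧ q < qb ∧ s < X ∧ s ∉ S ∧
      (((Finset.range N).filter fun j => (W₀ + s + j * X, q) ∈ B).card : ℝ) ≤ 2 * β / X := by
  classical
  by_contra hcon
  push Not at hcon
  have hXr : (0 : ℝ) < X := by exact_mod_cast hX
  obtain ⟨P, hP⟩ : ∃ P, P = Finset.Ico qa qb ×ˢ (Finset.range X \ S) := ⟨_, rfl⟩
  obtain ⟨T, hT⟩ : ∃ T, T = (P ×ˢ Finset.range N).filter
    (fun t => (W₀ + t.1.2 + t.2 * X, t.1.1) ∈ B) := ⟨_, rfl⟩
  have hcardS : ((Finset.range X \ S).card : ℝ) = X - S.card := by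
    rw [Finset.card_sdiff_of_subset hS, Finset.card_range,
      Nat.cast_sub (by
        have := Finset.card_le_card hS
        rwa [Finset.card_range] at this)]
  have hS2' : 2 * (S.card : ℝ) ≤ X := by exact_mod_cast hS2
  have hPc : (P.card : ℝ) = (qb - qa : ℕ) * (X - S.card) := by
    rw [hP, Finset.card_product, Nat.card_Ico]
    push_cast
    rw [hcardS]
  have hTB : T.card ≤ B.card := by
    refine Finset.card_le_card_of_injOn (fun t => (W₀ + t.1.2 + t.2 * X, t.1.1)) ?_ ?_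
    · intro t ht
      have ht' := Finset.mem_coe.1 ht
      rw [hT, Finset.mem_filter] at ht'
      exact ht'.2
    · intro t ht t' ht' h
      have h1 := Finset.mem_coe.1 ht
      have h2 := Finset.mem_coe.1 ht'
      rw [hT, hP, Finset.mem_filter, Finset.mem_product, Finset.mem_product,
        Finset.mem_sdiff, Finset.mem_range] at h1 h2
      obtain ⟨e1, e2⟩ := Prod.ext_iff.mp h
      simp only at e1 e2
      have s1 : t.1.2 < X := h1.1.1.2.1
      have s2 : t'.1.2 < X := h2.1.1.2.1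
      have e3 : t.1.2 + t.2 * X = t'.1.2 + t'.2 * X := by omega
      have e4 : t.1.2 = t'.1.2 := by
        have h3 := congrArg (fun a => a % X) e3
        simp only [Nat.add_mul_mod_self_right] at h3
        rwa [Nat.mod_eq_of_lt s1, Nat.mod_eq_of_lt s2] at h3
      have e5 : t.2 = t'.2 := by
        have h3 : t.2 * X = t'.2 * X := by omega
        exact Nat.eq_of_mul_eq_mul_right hX h3
      exact Prod.ext (Prod.ext e2 e4) e5
  have hTs : T.card = ∑ x ∈ P, ((Finset.range N).filter fun j =>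
      (W₀ + x.2 + j * X, x.1) ∈ B).card := by
    rw [Finset.card_eq_sum_card_fiberwise (f := fun t : (ℕ × ℕ) × ℕ => t.1) (t := P)]
    · refine Finset.sum_congr rfl fun x hx => ?_
      refine Finset.card_bij (fun t _ => t.2) ?_ ?_ ?_
      · intro t ht
        rw [Finset.mem_filter, hT, Finset.mem_filter, Finset.mem_product] at ht
        obtain ⟨⟨⟨h1, h2⟩, h3⟩, h4⟩ := ht
        rw [h4] at h3
        exact Finset.mem_filter.2 ⟨h2, h3⟩
      · intro t ht t' ht' h
        rw [Finset.mem_filter] at ht ht'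
        exact Prod.ext (ht.2.trans ht'.2.symm) h
      · intro j hj
        rw [Finset.mem_filter] at hj
        refine ⟨(x, j), ?_, rfl⟩
        rw [Finset.mem_filter, hT, Finset.mem_filter, Finset.mem_product]
        exact ⟨⟨⟨hx, hj.1⟩, hj.2⟩, rfl⟩
    · intro t ht
      have ht' := Finset.mem_coe.1 ht
      rw [hT, Finset.mem_filter, Finset.mem_product] at ht'
      exact ht'.1.1
  have hPne : P.Nonempty := by
    rw [← Finset.card_pos]
    have : (0 : ℝ) < P.card := by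
      rw [hPc]
      have h1 : (0 : ℝ) < (qb - qa : ℕ) := by
        have : 0 < qb - qa := by omega
        exact_mod_cast this
      have h2 : (0 : ℝ) < X - S.card := by linarith
      positivity
    exact_mod_cast this
  have hlt : ∑ _x ∈ P, 2 * β / (X : ℝ) < ∑ x ∈ P, (((Finset.range N).filter fun j =>
      (W₀ + x.2 + j * X, x.1) ∈ B).card : ℝ) := by
    refine Finset.sum_lt_sum_of_nonempty hPne fun x hx => ?_
    rw [hP, Finset.mem_product, Finset.mem_Ico, Finset.mem_sdiff, Finset.mem_range] at hx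
    exact hcon x.1 x.2 hx.1.1 hx.1.2 hx.2.1 hx.2.2
  rw [Finset.sum_const, nsmul_eq_mul, hPc] at hlt
  have h1 : (T.card : ℝ) = ∑ x ∈ P, (((Finset.range N).filter fun j =>
      (W₀ + x.2 + j * X, x.1) ∈ B).card : ℝ) := by
    rw [hTs]
    push_cast
    rfl
  rw [← h1] at hlt
  have h2 : (T.card : ℝ) ≤ B.card := by exact_mod_cast hTB
  have h3 := hlt.trans_le (h2.trans hB)
  have h4 : (0 : ℝ) < (qb - qa : ℕ) := by
    have : 0 < qb - qa := by omega
    exact_mod_cast this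
  have hβ : 0 ≤ β := by
    have : (0 : ℝ) ≤ B.card := Nat.cast_nonneg _
    have h5 := this.trans hB
    by_contra hneg
    have := mul_neg_of_neg_of_pos (not_le.1 hneg) h4
    linarith
  have h5 : β * (qb - qa : ℕ) ≤ ((qb - qa : ℕ) : ℝ) * (X - S.card) * (2 * β / X) := by
    have e : ((qb - qa : ℕ) : ℝ) * (X - S.card) * (2 * β / X) =
      β * (qb - qa : ℕ) * ((2 * (X - S.card)) / X) := by ring
    rw [e]
    have h6 : 1 ≤ (2 * (X - S.card)) / (X : ℝ) := by
      rw [le_div_iff₀ hXr]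
      linarith
    have := mul_le_mul_of_nonneg_left h6 (show 0 ≤ β * ((qb - qa : ℕ) : ℝ) by positivity)
    linarith
  linarith

end Pool.PC
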